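import Pool.Agent.H48.RG.Defs

/-!
Dimension eleven: definitions and the certificate.
-/

set_option autoImplicit false

open MeasureTheory Filter Topology Metric Set
open scoped RealInnerProductSpace ENNReal

namespace Pool.Agent.H48.RE

open Pool.Agent.RZ Pool.Agent.H1.LD Pool.Agent.H48.R7 Pool.Agent.H48.RG

variable {d : ℕ}

/-- the scalar kernel of dimension eleven, integrated against the measure -/
noncomputable def K11 (μ : Measure (X d)) (z : X d) (β : ℝ) (Y : X d) : ℝ :=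
  ∫ x, ‖x - z‖⁻¹ ^ 10 * ek 1 β z x Y ∂μ

/-- the square function -/
noncomputable def Q11 (μ : Measure (X d)) (z : X d) (t : ℝ) : ℝ≥0∞ :=
  ENNReal.ofReal ((t ^ d * gc d 4)⁻¹ * t⁻¹ ^ 2) * ∫⁻ Y, ‖K11 μ z (2 / t ^ 2) Y‖ₑ ^ 2

/-- measures for which all kernels are absolutely integrable -/
def Nice11 (ν : Measure (X d)) : Prop :=
  IsFiniteMeasure ν ∧ ∃ C : ℝ, ∀ p : X d, ∫⁻ x, ‖x - p‖ₑ⁻¹ ^ 11 ∂ν ≤ ENNReal.ofReal C

/-- the Riesz transform of dimension eleven of a nice measure -/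
noncomputable def F11 (ν : Measure (X d)) (z : X d) : X d := ∫ x, ‖z - x‖⁻¹ ^ 12 • (z - x) ∂ν

/-- a kernel list -/
def l2D : List Mn := [
  (16, 0, 0, 0), (34, 0, 1, 0), (-48, 1, 0, 0), (12, 0, 2, 0), (112, 0, 0, 1), (-16, 1, 1, 0),
  (16, 2, 0, 0), (48, 0, 1, 1), (-48, 1, 0, 1), (-8, 2, 1, 0), (16, 0, 0, 2)]

/-- a kernel list -/
def l2U : List Mn := [
  (16, 0, 2, 0), (16, 0, 0, 1), (16, 1, 1, 0), (2, 0, 3, 0), (2, 0, 1, 1), (-6, 1, 2, 0),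
  (-8, 1, 0, 1), (-8, 2, 1, 0), (4, 0, 2, 1), (4, 0, 0, 2), (4, 1, 1, 1)]

/-- a kernel list -/
def l0D : List Mn := [
  (2, 0, 1, 0), (12, 0, 2, 0), (16, 0, 0, 1), (48, 0, 1, 1), (-16, 1, 0, 1), (-8, 2, 1, 0),
  (16, 0, 0, 2)]

/-- a kernel list -/
def l0V : List Mn := [
  (1 / 512, 0, 1, 0), (917 / 256, 0, 2, 0), (9 / 16, 0, 0, 1), (131 / 256, 1, 1, 0),
  (175 / 128, 0, 3, 0), (151 / 128, 0, 1, 1), (-19 / 4, 1, 2, 0), (9 / 16, 1, 0, 1),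
  (81 / 128, 2, 1, 0), (109 / 64, 0, 2, 1), (15 / 16, 0, 0, 2), (-57 / 32, 1, 1, 1),
  (39 / 64, 2, 2, 0), (-3 / 16, 2, 0, 1), (-13 / 64, 3, 1, 0), (-17 / 32, 0, 1, 2),
  (-3 / 16, 1, 0, 2), (13 / 32, 2, 1, 1), (1 / 16, 0, 0, 3)]

/-- a kernel list -/
def l1X : List Mn := [
  (9 / 16, 0, 0, 0), (-11 / 8, 0, 1, 0), (-9 / 8, 1, 0, 0), (1, 0, 2, 0), (9 / 4, 0, 0, 1),
  (5 / 2, 1, 1, 0), (1 / 2, 0, 3, 0), (-5 / 2, 0, 1, 1), (-3 / 2, 1, 2, 0), (1, 0, 2, 1)]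

/-- a kernel list -/
def l3D : List Mn := [
  (81, 0, 0, 0), (62, 0, 1, 0), (-144, 1, 0, 0), (12, 0, 2, 0), (184, 0, 0, 1), (-24, 1, 1, 0),
  (36, 2, 0, 0), (48, 0, 1, 1), (-64, 1, 0, 1), (-8, 2, 1, 0), (16, 0, 0, 2)]

/-- a kernel list -/
def l1V : List Mn := [
  (1 / 1024, 0, 0, 0), (1573 / 512, 0, 1, 0), (-13 / 512, 1, 0, 0), (1329 / 128, 0, 2, 0),
  (151 / 256, 0, 0, 1), (-195 / 32, 1, 1, 0), (9 / 256, 2, 0, 0), (175 / 128, 0, 3, 0),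
  (597 / 128, 0, 1, 1), (-873 / 128, 1, 2, 0), (-57 / 64, 1, 0, 1), (351 / 128, 2, 1, 0),
  (-1 / 128, 3, 0, 0), (109 / 64, 0, 2, 1), (55 / 64, 0, 0, 2), (-33 / 16, 1, 1, 1),
  (39 / 64, 2, 2, 0), (13 / 64, 2, 0, 1), (-13 / 32, 3, 1, 0), (-17 / 32, 0, 1, 2),
  (-9 / 32, 1, 0, 2), (13 / 32, 2, 1, 1), (1 / 16, 0, 0, 3)]

/-- a kernel list -/
def l0A : List Mn := [
  (2, 0, 1, 0), (4, 0, 0, 1)]

/-- a kernel list -/
def l1D : List Mn := [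
  (1, 0, 0, 0), (14, 0, 1, 0), (-8, 1, 0, 0), (12, 0, 2, 0), (56, 0, 0, 1), (-8, 1, 1, 0),
  (4, 2, 0, 0), (48, 0, 1, 1), (-32, 1, 0, 1), (-8, 2, 1, 0), (16, 0, 0, 2)]

/-- a kernel list -/
def l1DD : List Mn := [
  (1, 0, 0, 0), (74, 0, 1, 0), (-26, 1, 0, 0), (264, 0, 2, 0), (604, 0, 0, 1), (-96, 1, 1, 0),
  (36, 2, 0, 0), (120, 0, 3, 0), (1704, 0, 1, 1), (-72, 1, 2, 0), (-912, 1, 0, 1),
  (-264, 2, 1, 0), (-8, 3, 0, 0), (720, 0, 2, 1), (880, 0, 0, 2), (-576, 1, 1, 1),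
  (-144, 2, 2, 0), (208, 2, 0, 1), (96, 3, 1, 0), (480, 0, 1, 2), (-288, 1, 0, 2),
  (-96, 2, 1, 1), (64, 0, 0, 3)]

/-- the coefficient of the coercive atom -/
def c11 : ℚ := 42230794233241 / 2830363602346330

/-- the other atoms -/
def R11 : List At := [
  ⟨186026708649600 / 283036360234633, 7, 4, 1, L1⟩,
  ⟨18659725812153 / 1415181801173165, 8, 7, 2, l2D⟩,
  ⟨79369242121813 / 1415181801173165, 8, 6, 1, L1⟩,
  ⟨206423862572408 / 4245545403519495, 8, 7, 2, l2U⟩,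
  ⟨983813583963369 / 11321454409385320, 8, 5, 0, l0D⟩,
  ⟨271651623107840 / 283036360234633, 6, 1, 0, l0V⟩,
  ⟨423728072658984 / 1415181801173165, 5, 0, 1, l1X⟩,
  ⟨32296303585 / 283036360234633, 8, 8, 3, l3D⟩,
  ⟨113252102026752 / 283036360234633, 6, 2, 1, l1V⟩,
  ⟨41418068407545 / 566072720469266, 8, 5, 0, l0A⟩,
  ⟨1271977495040 / 283036360234633, 9, 8, 1, L1⟩,
  ⟨970208099849 / 33896570087980, 8, 6, 1, l1D⟩,
  ⟨1291852143400 / 283036360234633, 9, 8, 1, l1D⟩,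
  ⟨19874648360 / 283036360234633, 9, 8, 1, l1DD⟩]

/-- the certificate -/
def T11 : List At := A1 c11 5 :: R11

end Pool.Agent.H48.RE
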