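import Pool.Agent.H48.RE.Pol2
import Pool.Agent.H48.RE.Defs

/-!
The identity in dimension eleven.
-/

set_option autoImplicit false

open MeasureTheory Filter Topology Metric Set
open scoped RealInnerProductSpace ENNReal

namespace Pool.Agent.H48.RE

open Pool.Agent.RZ Pool.Agent.H1.LD Pool.Agent.H48.R7 Pool.Agent.H48.RG

variable {d : ℕ}

/-- integer data of the certificate -/
def D11 : List Dt := [
  (16216624985564544, 2, 5, 0, [(1, 0, 0, 8), (-2, 0, 0, 8), (1, 1, 0, 7), (2, 0, 1, 6)]),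
  (44646410075904000, 2, 7, 4, [(1, 0, 0, 8), (-2, 0, 0, 8), (1, 1, 0, 7), (2, 0, 1, 6)]),
  (223916709745836, 1, 8, 7, [(8, 0, 0, 7), (17, 1, 0, 6), (-48, 0, 0, 7), (9, 2, 0, 5),
    (84, 0, 1, 5), (-24, 1, 0, 6), (48, 0, 0, 7), (72, 1, 1, 4),
    (-144, 0, 1, 5), (-48, 1, 0, 6), (60, 0, 2, 3)]),
  (952430905461756, 2, 8, 6, [(1, 0, 0, 8), (-2, 0, 0, 8), (1, 1, 0, 7), (2, 0, 1, 6)]),
  (825695450289632, 1, 8, 7, [(12, 2, 0, 5), (12, 0, 1, 5), (24, 1, 0, 6), (3, 3, 0, 4),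
    (3, 1, 1, 4), (-18, 2, 0, 5), (-24, 0, 1, 5), (-48, 1, 0, 6),
    (15, 2, 1, 3), (15, 0, 2, 3), (30, 1, 1, 4)]),
  (2951440751890107, 2, 8, 5, [(1, 1, 0, 8), (3, 2, 0, 7), (4, 0, 1, 7), (12, 1, 1, 6),
    (-8, 0, 1, 7), (-8, 1, 0, 8), (6, 0, 2, 5)]),
  (509346793327200, 2048, 6, 1, [(1, 1, 0, 8), (917, 2, 0, 7), (144, 0, 1, 7), (262, 1, 0, 8),
    (350, 3, 0, 6), (302, 1, 1, 6), (-2432, 2, 0, 7), (288, 0, 1, 7),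
    (648, 1, 0, 8), (654, 2, 1, 5), (360, 0, 2, 5), (-1368, 1, 1, 6),
    (936, 2, 0, 7), (-288, 0, 1, 7), (-624, 1, 0, 8), (-408, 1, 2, 4),
    (-288, 0, 2, 5), (1248, 1, 1, 6), (120, 0, 3, 3)]),
  (20338947487631232, 32, 5, 0, [(9, 0, 0, 8), (-11, 1, 0, 7), (-18, 0, 0, 8), (8, 2, 0, 6),
    (18, 0, 1, 6), (40, 1, 0, 7), (6, 3, 0, 5), (-30, 1, 1, 5),
    (-36, 2, 0, 6), (24, 2, 1, 4)]),
  (968889107550, 1, 8, 8, [(81, 0, 0, 6), (93, 1, 0, 5), (-432, 0, 0, 6), (36, 2, 0, 4),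
    (552, 0, 1, 4), (-144, 1, 0, 5), (432, 0, 0, 6), (360, 1, 1, 3),
    (-960, 0, 1, 4), (-240, 1, 0, 5), (360, 0, 2, 2)]),
  (106173845650080, 2048, 6, 2, [(1, 0, 0, 8), (1573, 1, 0, 7), (-26, 0, 0, 8), (5316, 2, 0, 6),
    (302, 0, 1, 6), (-6240, 1, 0, 7), (72, 0, 0, 8), (1050, 3, 0, 5),
    (3582, 1, 1, 5), (-10476, 2, 0, 6), (-1368, 0, 1, 6), (8424, 1, 0, 7),
    (-48, 0, 0, 8), (2616, 2, 1, 4), (1320, 0, 2, 4), (-6336, 1, 1, 5),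
    (3744, 2, 0, 6), (1248, 0, 1, 6), (-4992, 1, 0, 7), (-2040, 1, 2, 3),
    (-2160, 0, 2, 4), (6240, 1, 1, 5), (720, 0, 3, 2)]),
  (2485084104452700, 2, 8, 5, [(1, 1, 0, 8), (1, 0, 1, 7)]),
  (19079662425600, 2, 9, 8, [(1, 0, 0, 8), (-2, 0, 0, 8), (1, 1, 0, 7), (2, 0, 1, 6)]),
  (486074258024349, 2, 8, 6, [(1, 0, 0, 8), (7, 1, 0, 7), (-8, 0, 0, 8), (6, 2, 0, 6),
    (28, 0, 1, 6), (-8, 1, 0, 7), (8, 0, 0, 8), (36, 1, 1, 5),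
    (-48, 0, 1, 6), (-24, 1, 0, 7), (24, 0, 2, 4)]),
  (19377782151000, 2, 9, 8, [(1, 0, 0, 8), (7, 1, 0, 7), (-8, 0, 0, 8), (6, 2, 0, 6),
    (28, 0, 1, 6), (-8, 1, 0, 7), (8, 0, 0, 8), (36, 1, 1, 5),
    (-48, 0, 1, 6), (-24, 1, 0, 7), (24, 0, 2, 4)]),
  (298119725400, 2, 9, 8, [(1, 0, 0, 8), (37, 1, 0, 7), (-26, 0, 0, 8), (132, 2, 0, 6),
    (302, 0, 1, 6), (-96, 1, 0, 7), (72, 0, 0, 8), (90, 3, 0, 5),
    (1278, 1, 1, 5), (-108, 2, 0, 6), (-1368, 0, 1, 6), (-792, 1, 0, 7),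
    (-48, 0, 0, 8), (1080, 2, 1, 4), (1320, 0, 2, 4), (-1728, 1, 1, 5),
    (-864, 2, 0, 6), (1248, 0, 1, 6), (1152, 1, 0, 7), (1800, 1, 2, 3),
    (-2160, 0, 2, 4), (-1440, 1, 1, 5), (720, 0, 3, 2)])]

theorem okT11 : okT 9 (2 * 1086859623300990720) T11 D11 = true := by decide +kernel

theorem hm11 : hmT 9 16 D11 = true := by decide +kernel

theorem chk11 : chk 9 3 1086859623300990720 D11 = true := by decide +kernel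

theorem fit11 : ∀ t ∈ T11, Fit 9 t := by
  unfold Fit
  decide +kernel

theorem hid11 (a b : X d) (ha : a ≠ 0) (hb : b ≠ 0) (hab : a ≠ b) :
    WN T11 a b + WN T11 (-a) (b - a) + WN T11 (a - b) (-b) =
      LN 11 a b + LN 11 (-a) (b - a) + LN 11 (a - b) (-b) :=
  ident_data (M := 9) (N := 11) (r := 3) (E := 16) (by norm_num) (by decide) fit11
    (by norm_num) okT11 hm11 (by norm_num) (by norm_num) chk11 ha hb hab

end Pool.Agent.H48.RE
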