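import Pool.Agent.H48.RE.Ok
import Pool.Agent.H48.RE.Id
import Pool.Agent.H48.RG.CertG

/-!
The certificate of dimension eleven in the sense of `Pool.Agent.H1.CG.Cert`.
-/

set_option autoImplicit false

open MeasureTheory Filter Topology Metric Set
open scoped RealInnerProductSpace ENNReal

namespace Pool.Agent.H48.RE

open Pool.Agent.RZ Pool.Agent.H1.LD Pool.Agent.H48.R7 Pool.Agent.H48.RG Pool.Agent.H1.CG

variable {d : ℕ}

theorem cert11 : Cert 4 (WN T11 : X d → X d → ℝ) :=
  certG (l := 4) (c := c11) (T := R11) (by norm_num [c11]) ok11 hid11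

end Pool.Agent.H48.RE
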