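import Pool.Agent.H48.RE.Ok
import Pool.Agent.H48.RE.Id
import Pool.Agent.H48.RG.EnD

/-!
The energy inequality in dimension eleven.
-/

set_option autoImplicit false

open MeasureTheory Filter Topology Metric Set
open scoped RealInnerProductSpace ENNReal

namespace Pool.Agent.H48.RE

open Pool.Agent.RZ Pool.Agent.H1.LD Pool.Agent.H48.R7 Pool.Agent.H48.RG

variable {d : ℕ}

theorem energy_eleven {ν : Measure (X d)} (h : Nice11 ν) :
    ∫⁻ z, (∫⁻ t in Ioi (0 : ℝ), Q11 ν z t * ENNReal.ofReal t⁻¹) ∂ν ≤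
      ENNReal.ofReal (68 * ∫ z, ‖F11 ν z‖ ^ 2 ∂ν) := by
  have h1 := energyN (M := 5) (c := c11) (T := R11) (by norm_num [c11]) ok11 hid11 (ν := ν) h
  refine h1.trans (ENNReal.ofReal_le_ofReal ?_)
  have h2 : (0 : ℝ) ≤ ∫ z, ‖FN (2 * 5 + 1) ν z‖ ^ 2 ∂ν := integral_nonneg fun z => by positivity
  have h3 : ((c11 : ℚ) : ℝ)⁻¹ ≤ 68 := by
    unfold c11
    norm_num
  exact mul_le_mul_of_nonneg_right h3 h2

end Pool.Agent.H48.RE
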