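import Pool.Agent.H48.RG.Defs

/-!
Evaluation of a certificate as a polynomial in the squared side lengths.
-/

set_option autoImplicit false

open MeasureTheory Filter Topology Metric Set
open scoped RealInnerProductSpace ENNReal

namespace Pool.Agent.H48.RE

open Pool.Agent.RZ Pool.Agent.H1.LD Pool.Agent.H48.R7 Pool.Agent.H48.RG

variable {d : ℕ}

/-- a monomial, multiplied by `C ^ M` -/
noncomputable def pm (M k : ℕ) (μ : Mn) (p S C : ℝ) : ℝ :=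
  (μ.1 : ℝ) * ((k + wt μ - 1).factorial / 2) * p ^ μ.2.2.1 * S ^ μ.2.2.2 *
    C ^ (M - (k + μ.2.2.1 + 2 * μ.2.2.2))

/-- an atom, multiplied by `(A B C) ^ M` -/
noncomputable def pw (M : ℕ) (T : At) (p S A B C : ℝ) : ℝ :=
  (T.c : ℝ) * (A ^ (M - T.m) * B ^ (M - T.m) * p ^ T.j * (T.L.map fun μ => pm M T.k μ p S C).sum)

/-- the certificate, multiplied by `(A B C) ^ M` -/
noncomputable def PW (M : ℕ) (T : List At) (A B C : ℝ) : ℝ :=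
  (T.map fun t => pw M t ((A + B - C) / 2) ((A + C - B) * (B + C - A) / 4) A B C).sum

/-- the exponents fit -/
def Fit (M : ℕ) (T : At) : Prop :=
  T.m ≤ M ∧ ∀ μ ∈ T.L, T.k + μ.2.2.1 + 2 * μ.2.2.2 ≤ M

theorem ev_inner (a b : X d) : ⟪a, b⟫ = (‖a‖ ^ 2 + ‖b‖ ^ 2 - ‖a - b‖ ^ 2) / 2 := by
  rw [norm_sub_sq_real]; ring

theorem ev_prg (a b : X d) : prg a b =
    (‖a‖ ^ 2 + ‖a - b‖ ^ 2 - ‖b‖ ^ 2) * (‖b‖ ^ 2 + ‖a - b‖ ^ 2 - ‖a‖ ^ 2) / 4 := by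
  unfold prg
  have h1 : ⟪a, a - b⟫ = ‖a‖ ^ 2 - ⟪a, b⟫ := by rw [inner_sub_right, real_inner_self_eq_norm_sq]
  have h2 : ⟪b, b - a⟫ = ‖b‖ ^ 2 - ⟪a, b⟫ := by
    rw [inner_sub_right, real_inner_self_eq_norm_sq, real_inner_comm]
  rw [h1, h2, ev_inner a b]
  ring

theorem ev_mono {M k : ℕ} {μ : Mn} (h : k + μ.2.2.1 + 2 * μ.2.2.2 ≤ M) {a b : X d}
    (hab : a ≠ b) :
    mv μ a b * ((k + wt μ - 1).factorial / 2 * ‖a - b‖⁻¹ ^ (2 * (k + wt μ))) *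
      (‖a - b‖ ^ 2) ^ M = pm M k μ ⟪a, b⟫ (prg a b) (‖a - b‖ ^ 2) := by
  have hc : (‖a - b‖ ^ 2) ≠ 0 := pow_ne_zero 2 (norm_ne_zero_iff.2 (sub_ne_zero.2 hab))
  have e : ‖a - b‖⁻¹ ^ (2 * (k + wt μ)) = ((‖a - b‖ ^ 2) ^ (k + wt μ))⁻¹ := by
    rw [pow_mul, inv_pow, inv_pow]
  rw [e]
  unfold mv pm
  generalize ‖a - b‖ ^ 2 = C at hc
  obtain ⟨r, hr⟩ : ∃ r, M = k + μ.2.2.1 + 2 * μ.2.2.2 + r := ⟨_, (Nat.add_sub_of_le h).symm⟩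
  have e2 : M - (k + μ.2.2.1 + 2 * μ.2.2.2) = r := by omega
  have e3 : C ^ μ.2.1 * C ^ M = C ^ (k + wt μ) * C ^ r := by
    rw [← pow_add, ← pow_add]
    congr 1
    unfold wt
    omega
  rw [e2]
  have e4 : C ^ μ.2.1 * (C ^ (k + wt μ))⁻¹ * C ^ M = C ^ r := by
    have h5 : C ^ (k + wt μ) ≠ 0 := pow_ne_zero _ hc
    calc C ^ μ.2.1 * (C ^ (k + wt μ))⁻¹ * C ^ M
        = (C ^ μ.2.1 * C ^ M) * (C ^ (k + wt μ))⁻¹ := by ring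
      _ = C ^ (k + wt μ) * C ^ r * (C ^ (k + wt μ))⁻¹ := by rw [e3]
      _ = C ^ r := by field_simp
  calc _ = (μ.1 : ℝ) * ((k + wt μ - 1).factorial / 2) * ⟪a, b⟫ ^ μ.2.2.1 *
        prg a b ^ μ.2.2.2 * (C ^ μ.2.1 * (C ^ (k + wt μ))⁻¹ * C ^ M) := by ring
    _ = _ := by rw [e4]

theorem ev_atom {M : ℕ} {T : At} (h : Fit M T) {a b : X d} (ha : a ≠ 0) (hb : b ≠ 0)
    (hab : a ≠ b) :
    (T.c : ℝ) * (wa T a b * li T.k T.L a b) *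
      ((‖a‖ ^ 2) ^ M * (‖b‖ ^ 2) ^ M * (‖a - b‖ ^ 2) ^ M) =
    pw M T ⟪a, b⟫ (prg a b) (‖a‖ ^ 2) (‖b‖ ^ 2) (‖a - b‖ ^ 2) := by
  have h1 : ∀ u : X d, u ≠ 0 → ‖u‖⁻¹ ^ (2 * T.m) * (‖u‖ ^ 2) ^ M = (‖u‖ ^ 2) ^ (M - T.m) := by
    intro u hu
    have hc : (‖u‖ ^ 2) ≠ 0 := pow_ne_zero 2 (norm_ne_zero_iff.2 hu)
    rw [pow_mul, inv_pow, inv_pow, inv_mul_eq_iff_eq_mul₀ (pow_ne_zero _ hc), ← pow_add,
      Nat.add_sub_of_le h.1]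
  have h2 : ∀ L : List Mn, (∀ μ ∈ L, T.k + μ.2.2.1 + 2 * μ.2.2.2 ≤ M) →
      li T.k L a b * (‖a - b‖ ^ 2) ^ M =
        (L.map fun μ => pm M T.k μ ⟪a, b⟫ (prg a b) (‖a - b‖ ^ 2)).sum := by
    intro L
    unfold li
    induction L with
    | nil => intro _; simp
    | cons μ L ih =>
      intro hL
      simp only [List.map_cons, List.sum_cons]
      rw [add_mul, ih fun ν hν => hL ν (List.mem_cons_of_mem _ hν),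
        ev_mono (hL μ List.mem_cons_self) hab]
  unfold pw wa
  rw [← h2 T.L h.2, ← h1 a ha, ← h1 b hb]
  ring

theorem ev_W {M : ℕ} {T : List At} (h : ∀ t ∈ T, Fit M t) {a b : X d} (ha : a ≠ 0) (hb : b ≠ 0)
    (hab : a ≠ b) :
    WN T a b * ((‖a‖ ^ 2) ^ M * (‖b‖ ^ 2) ^ M * (‖a - b‖ ^ 2) ^ M) =
      PW M T (‖a‖ ^ 2) (‖b‖ ^ 2) (‖a - b‖ ^ 2) := by
  unfold WN PW
  rw [← ev_inner a b, ← ev_prg a b]
  induction T with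
  | nil => simp
  | cons t T ih =>
    simp only [List.map_cons, List.sum_cons]
    rw [add_mul, ih fun s hs => h s (List.mem_cons_of_mem _ hs),
      ev_atom (h t List.mem_cons_self) ha hb hab]

theorem ev_L {M N : ℕ} (hM : N + 1 ≤ 2 * M) (hN : Even (N + 1)) {a b : X d} (ha : a ≠ 0)
    (hb : b ≠ 0) :
    LN N a b * ((‖a‖ ^ 2) ^ M * (‖b‖ ^ 2) ^ M * (‖a - b‖ ^ 2) ^ M) =
      (‖a‖ ^ 2 + ‖b‖ ^ 2 - ‖a - b‖ ^ 2) / 2 * (‖a‖ ^ 2) ^ (M - (N + 1) / 2) *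
        (‖b‖ ^ 2) ^ (M - (N + 1) / 2) * (‖a - b‖ ^ 2) ^ M := by
  obtain ⟨r, hr⟩ := hN
  have h0 : (N + 1) / 2 = r := by omega
  have hr2 : N + 1 = 2 * r := by omega
  have h1 : ∀ u : X d, u ≠ 0 → ‖u‖⁻¹ ^ (N + 1) * (‖u‖ ^ 2) ^ M = (‖u‖ ^ 2) ^ (M - r) := by
    intro u hu
    have hc : (‖u‖ ^ 2) ≠ 0 := pow_ne_zero 2 (norm_ne_zero_iff.2 hu)
    rw [hr2, pow_mul, inv_pow, inv_pow, inv_mul_eq_iff_eq_mul₀ (pow_ne_zero _ hc), ← pow_add,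
      Nat.add_sub_of_le (by omega)]
  rw [h0, ← ev_inner a b, ← h1 a ha, ← h1 b hb]
  unfold LN
  ring

/-- the identity from the polynomial identity -/
theorem ident_of {M N : ℕ} (hM : N + 1 ≤ 2 * M) (hN : Even (N + 1)) {T : List At}
    (h : ∀ t ∈ T, Fit M t)
    (hp : ∀ A B C : ℝ, C ≠ 0 → PW M T A B C + PW M T A C B + PW M T C B A =
      (A + B - C) / 2 * A ^ (M - (N + 1) / 2) * B ^ (M - (N + 1) / 2) * C ^ M +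
      (A + C - B) / 2 * A ^ (M - (N + 1) / 2) * C ^ (M - (N + 1) / 2) * B ^ M +
      (C + B - A) / 2 * C ^ (M - (N + 1) / 2) * B ^ (M - (N + 1) / 2) * A ^ M)
    {a b : X d} (ha : a ≠ 0) (hb : b ≠ 0) (hab : a ≠ b) :
    WN T a b + WN T (-a) (b - a) + WN T (a - b) (-b) =
      LN N a b + LN N (-a) (b - a) + LN N (a - b) (-b) := by
  have ha' : -a ≠ 0 := neg_ne_zero.2 ha
  have hb' : -b ≠ 0 := neg_ne_zero.2 hb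
  have hc : a - b ≠ 0 := sub_ne_zero.2 hab
  have hc' : b - a ≠ 0 := sub_ne_zero.2 (Ne.symm hab)
  have e1 : ‖b - a‖ = ‖a - b‖ := norm_sub_rev b a
  have e2 : ‖-a - (b - a)‖ = ‖b‖ := by
    rw [show -a - (b - a) = -b by abel, norm_neg]
  have e3 : ‖a - b - -b‖ = ‖a‖ := by
    rw [show a - b - -b = a by abel]
  have d1 : -a ≠ b - a := by
    intro h
    apply hb
    have : b = b - a - -a := by abel
    rw [this, ← h]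
    abel
  have d2 : a - b ≠ -b := by
    intro h
    apply ha
    have : a = a - b - -b := by abel
    rw [this, h]
    abel
  have w1 := ev_W h ha hb hab
  have w2 := ev_W h ha' hc' d1
  have w3 := ev_W h hc hb' d2
  have l1 := ev_L (b := b) hM hN ha hb
  have l2 := ev_L (b := b - a) hM hN ha' hc'
  have l3 := ev_L (b := -b) hM hN hc hb'
  rw [e2, norm_neg, e1] at w2 l2
  rw [e3, norm_neg] at w3 l3
  have hk := hp (‖a‖ ^ 2) (‖b‖ ^ 2) (‖a - b‖ ^ 2) (pow_ne_zero 2 (norm_ne_zero_iff.2 hc))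
  have hA : (‖a‖ ^ 2) ^ M ≠ 0 := pow_ne_zero _ (pow_ne_zero 2 (norm_ne_zero_iff.2 ha))
  have hB : (‖b‖ ^ 2) ^ M ≠ 0 := pow_ne_zero _ (pow_ne_zero 2 (norm_ne_zero_iff.2 hb))
  have hC : (‖a - b‖ ^ 2) ^ M ≠ 0 := pow_ne_zero _ (pow_ne_zero 2 (norm_ne_zero_iff.2 hc))
  have hP : (‖a‖ ^ 2) ^ M * (‖b‖ ^ 2) ^ M * (‖a - b‖ ^ 2) ^ M ≠ 0 :=
    mul_ne_zero (mul_ne_zero hA hB) hC
  apply mul_right_cancel₀ hP
  rw [add_mul, add_mul, add_mul, add_mul, w1, l1]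
  have p1 : (‖a‖ ^ 2) ^ M * (‖b‖ ^ 2) ^ M * (‖a - b‖ ^ 2) ^ M =
      (‖a‖ ^ 2) ^ M * (‖a - b‖ ^ 2) ^ M * (‖b‖ ^ 2) ^ M := by ring
  have p2 : (‖a‖ ^ 2) ^ M * (‖a - b‖ ^ 2) ^ M * (‖b‖ ^ 2) ^ M =
      (‖a - b‖ ^ 2) ^ M * (‖b‖ ^ 2) ^ M * (‖a‖ ^ 2) ^ M := by ring
  rw [p1, w2, l2, p2, w3, l3, hk]

end Pool.Agent.H48.RE
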