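import Pool.Agent.H48.RE.Defs

/-!
Measurability of the square function.
-/

set_option autoImplicit false

open MeasureTheory Filter Topology Metric Set
open scoped RealInnerProductSpace ENNReal

namespace Pool.Agent.H48.RE

open Pool.Agent.RZ Pool.Agent.H1.LD Pool.Agent.H48.R7

variable {d : ℕ}

private theorem REQdB_integrand :
    Measurable fun q : ((X d × ℝ) × X d) × X d =>
      ‖q.2 - q.1.1.1‖⁻¹ ^ 10 * ek 1 (2 / q.1.1.2 ^ 2) q.1.1.1 q.2 q.1.2 := by
  unfold ek ga
  have hz : Measurable fun q : ((X d × ℝ) × X d) × X d => q.1.1.1 :=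
    measurable_fst.comp (measurable_fst.comp measurable_fst)
  have ht : Measurable fun q : ((X d × ℝ) × X d) × X d => q.1.1.2 :=
    measurable_snd.comp (measurable_fst.comp measurable_fst)
  have hY : Measurable fun q : ((X d × ℝ) × X d) × X d => q.1.2 :=
    measurable_snd.comp measurable_fst
  have hx : Measurable fun q : ((X d × ℝ) × X d) × X d => q.2 := measurable_snd
  have h1 : Measurable fun q : ((X d × ℝ) × X d) × X d => q.2 - q.1.1.1 := hx.sub hz
  have h2 : Measurable fun q : ((X d × ℝ) × X d) × X d => q.2 - q.1.2 := hx.sub hY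
  have h3 : Measurable fun q : ((X d × ℝ) × X d) × X d => 2 / q.1.1.2 ^ 2 :=
    measurable_const.div (ht.pow_const 2)
  refine Measurable.mul ((h1.norm.inv).pow_const 10) (Measurable.mul ?_ ?_)
  · exact measurable_const.sub ((measurable_const.mul h3).mul (h1.inner h2))
  · exact Real.measurable_exp.comp (h3.mul (h2.norm.pow_const 2)).neg

theorem Q11_measurable (μ : Measure (X d)) [IsFiniteMeasure μ] :
    Measurable fun p : X d × ℝ => Q11 μ p.1 p.2 := by
  unfold Q11 K11
  refine Measurable.mul ?_ ?_
  · exact ENNReal.measurable_ofReal.comp (((measurable_snd.pow_const d).mul_const _).inv.mul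
      ((measurable_snd.inv).pow_const 2))
  · refine Measurable.lintegral_prod_right' (f := fun q : (X d × ℝ) × X d =>
      ‖∫ x, ‖x - q.1.1‖⁻¹ ^ 10 * ek 1 (2 / q.1.2 ^ 2) q.1.1 x q.2 ∂μ‖ₑ ^ 2) ?_
    exact ((REQdB_integrand.stronglyMeasurable.integral_prod_right').measurable.enorm).pow_const 2

end Pool.Agent.H48.RE
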