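import Pool.Agent.H48.RG.Defs

/-!
Verification of kernel lists.
-/

set_option autoImplicit false

open MeasureTheory Filter Topology Metric Set
open scoped RealInnerProductSpace ENNReal

namespace Pool.Agent.H48.RE

open Pool.Agent.RZ Pool.Agent.H1.LD Pool.Agent.H48.R7 Pool.Agent.H48.RG

variable {d : ℕ}

/-- a kernel list is determined by a polynomial identity -/
theorem isker_of {k : ℕ} {L : List Mn} (α : Fin 6 → ℝ)
    (h : ∀ P R p : ℝ, (L.map fun μ => (μ.1 : ℝ) * (P + R) ^ μ.2.1 * p ^ μ.2.2.1 *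
        (P * R) ^ μ.2.2.2).sum =
      ∑ i ∈ Finset.range 5, ∑ j ∈ Finset.range 5,
        qg k α (2 * (P + p)) i * qg k α (2 * (R + p)) j * mo P R (P + p) (R + p) p i j) :
    IsKer d k L := by
  refine ⟨α, fun a b t ht => ?_⟩
  have h0 := h (⟪a, a - b⟫ / t ^ 2) (⟪b, b - a⟫ / t ^ 2) (⟪a, b⟫ / t ^ 2)
  have ht' : t ≠ 0 := ht.ne'
  have e1 : ⟪a, a - b⟫ / t ^ 2 + ⟪a, b⟫ / t ^ 2 = ‖a‖ ^ 2 / t ^ 2 := by
    rw [← add_div, ← inner_add_right, sub_add_cancel, real_inner_self_eq_norm_sq]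
  have e2 : ⟪b, b - a⟫ / t ^ 2 + ⟪a, b⟫ / t ^ 2 = ‖b‖ ^ 2 / t ^ 2 := by
    rw [← add_div, real_inner_comm b a, ← inner_add_right, sub_add_cancel,
      real_inner_self_eq_norm_sq]
  have e3 : ⟪a, a - b⟫ / t ^ 2 + ⟪b, b - a⟫ / t ^ 2 = ‖a - b‖ ^ 2 / t ^ 2 := by
    rw [← add_div, ← real_inner_self_eq_norm_sq (a - b)]
    congr 1
    simp only [inner_sub_left, inner_sub_right]
    ring
  rw [e1, e2, e3] at h0
  have e4 : ∀ μ : Mn, mv μ a b * t⁻¹ ^ (2 * wt μ) =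
      (μ.1 : ℝ) * (‖a - b‖ ^ 2 / t ^ 2) ^ μ.2.1 * (⟪a, b⟫ / t ^ 2) ^ μ.2.2.1 *
        (⟪a, a - b⟫ / t ^ 2 * (⟪b, b - a⟫ / t ^ 2)) ^ μ.2.2.2 := by
    intro μ
    unfold mv wt prg
    rw [div_mul_div_comm, div_pow, div_pow, div_pow, inv_pow]
    field_simp
    ring
  unfold lv mg pk
  simp only [e4]
  rw [h0, Finset.sum_mul]
  refine Finset.sum_congr rfl fun i _ => ?_
  rw [Finset.sum_mul]
  refine Finset.sum_congr rfl fun j _ => ?_
  have e5 : 2 / t ^ 2 * ‖a‖ ^ 2 = 2 * (‖a‖ ^ 2 / t ^ 2) := by ring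
  have e6 : 2 / t ^ 2 * ‖b‖ ^ 2 = 2 * (‖b‖ ^ 2 / t ^ 2) := by ring
  rw [e5, e6]
  ring

set_option linter.unusedSimpArgs false

variable (P R A B p : ℝ)

theorem mo_0_0 : mo P R A B p 0 0 =
    1 := by
  exact mo.eq_1 P R A B p

theorem mo_0_1 : mo P R A B p 0 1 =
    R := by
  exact mo.eq_2 P R A B p

theorem mo_0_2 : mo P R A B p 0 2 =
    R * mo P R A B p 0 1 + (1 / 2) * B * mo P R A B p 0 0 := by
  refine (mo.eq_3 P R A B p 0).trans ?_
  simp only [Nat.reduceAdd, zero_add, Nat.cast_ofNat, Nat.cast_zero, Nat.cast_one]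
  try ring

theorem mo_0_3 : mo P R A B p 0 3 =
    R * mo P R A B p 0 2 + (2 / 2) * B * mo P R A B p 0 1 := by
  refine (mo.eq_3 P R A B p 1).trans ?_
  simp only [Nat.reduceAdd, zero_add, Nat.cast_ofNat, Nat.cast_zero, Nat.cast_one]
  try ring

theorem mo_0_4 : mo P R A B p 0 4 =
    R * mo P R A B p 0 3 + (3 / 2) * B * mo P R A B p 0 2 := by
  refine (mo.eq_3 P R A B p 2).trans ?_
  simp only [Nat.reduceAdd, zero_add, Nat.cast_ofNat, Nat.cast_zero, Nat.cast_one]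
  try ring

theorem mo_1_0 : mo P R A B p 1 0 =
    P := by
  exact mo.eq_4 P R A B p

theorem mo_1_1 : mo P R A B p 1 1 =
    P * mo P R A B p 0 1 + (1 / 2) * p * mo P R A B p 0 0 := by
  refine (mo.eq_5 P R A B p 0).trans ?_
  simp only [Nat.reduceAdd, zero_add, Nat.cast_ofNat, Nat.cast_zero, Nat.cast_one]
  try ring

theorem mo_1_2 : mo P R A B p 1 2 =
    P * mo P R A B p 0 2 + (2 / 2) * p * mo P R A B p 0 1 := by
  refine (mo.eq_5 P R A B p 1).trans ?_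
  simp only [Nat.reduceAdd, zero_add, Nat.cast_ofNat, Nat.cast_zero, Nat.cast_one]
  try ring

theorem mo_1_3 : mo P R A B p 1 3 =
    P * mo P R A B p 0 3 + (3 / 2) * p * mo P R A B p 0 2 := by
  refine (mo.eq_5 P R A B p 2).trans ?_
  simp only [Nat.reduceAdd, zero_add, Nat.cast_ofNat, Nat.cast_zero, Nat.cast_one]
  try ring

theorem mo_1_4 : mo P R A B p 1 4 =
    P * mo P R A B p 0 4 + (4 / 2) * p * mo P R A B p 0 3 := by
  refine (mo.eq_5 P R A B p 3).trans ?_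
  simp only [Nat.reduceAdd, zero_add, Nat.cast_ofNat, Nat.cast_zero, Nat.cast_one]
  try ring

theorem mo_2_0 : mo P R A B p 2 0 =
    P * mo P R A B p 1 0 + (1 / 2) * A * mo P R A B p 0 0 := by
  refine (mo.eq_6 P R A B p 0).trans ?_
  simp only [Nat.reduceAdd, zero_add, Nat.cast_ofNat, Nat.cast_zero, Nat.cast_one]
  try ring

theorem mo_2_1 : mo P R A B p 2 1 =
    P * mo P R A B p 1 1 + (1 / 2) * A * mo P R A B p 0 1 + (1 / 2) * p * mo P R A B p 1 0 := by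
  refine (mo.eq_7 P R A B p 0 0).trans ?_
  simp only [Nat.reduceAdd, zero_add, Nat.cast_ofNat, Nat.cast_zero, Nat.cast_one]
  try ring

theorem mo_2_2 : mo P R A B p 2 2 =
    P * mo P R A B p 1 2 + (1 / 2) * A * mo P R A B p 0 2 + (2 / 2) * p * mo P R A B p 1 1 := by
  refine (mo.eq_7 P R A B p 0 1).trans ?_
  simp only [Nat.reduceAdd, zero_add, Nat.cast_ofNat, Nat.cast_zero, Nat.cast_one]
  try ring

theorem mo_2_3 : mo P R A B p 2 3 =
    P * mo P R A B p 1 3 + (1 / 2) * A * mo P R A B p 0 3 + (3 / 2) * p * mo P R A B p 1 2 := by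
  refine (mo.eq_7 P R A B p 0 2).trans ?_
  simp only [Nat.reduceAdd, zero_add, Nat.cast_ofNat, Nat.cast_zero, Nat.cast_one]
  try ring

theorem mo_2_4 : mo P R A B p 2 4 =
    P * mo P R A B p 1 4 + (1 / 2) * A * mo P R A B p 0 4 + (4 / 2) * p * mo P R A B p 1 3 := by
  refine (mo.eq_7 P R A B p 0 3).trans ?_
  simp only [Nat.reduceAdd, zero_add, Nat.cast_ofNat, Nat.cast_zero, Nat.cast_one]
  try ring

theorem mo_3_0 : mo P R A B p 3 0 =
    P * mo P R A B p 2 0 + (2 / 2) * A * mo P R A B p 1 0 := by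
  refine (mo.eq_6 P R A B p 1).trans ?_
  simp only [Nat.reduceAdd, zero_add, Nat.cast_ofNat, Nat.cast_zero, Nat.cast_one]
  try ring

theorem mo_3_1 : mo P R A B p 3 1 =
    P * mo P R A B p 2 1 + (2 / 2) * A * mo P R A B p 1 1 + (1 / 2) * p * mo P R A B p 2 0 := by
  refine (mo.eq_7 P R A B p 1 0).trans ?_
  simp only [Nat.reduceAdd, zero_add, Nat.cast_ofNat, Nat.cast_zero, Nat.cast_one]
  try ring

theorem mo_3_2 : mo P R A B p 3 2 =
    P * mo P R A B p 2 2 + (2 / 2) * A * mo P R A B p 1 2 + (2 / 2) * p * mo P R A B p 2 1 := by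
  refine (mo.eq_7 P R A B p 1 1).trans ?_
  simp only [Nat.reduceAdd, zero_add, Nat.cast_ofNat, Nat.cast_zero, Nat.cast_one]
  try ring

theorem mo_3_3 : mo P R A B p 3 3 =
    P * mo P R A B p 2 3 + (2 / 2) * A * mo P R A B p 1 3 + (3 / 2) * p * mo P R A B p 2 2 := by
  refine (mo.eq_7 P R A B p 1 2).trans ?_
  simp only [Nat.reduceAdd, zero_add, Nat.cast_ofNat, Nat.cast_zero, Nat.cast_one]
  try ring

theorem mo_3_4 : mo P R A B p 3 4 =
    P * mo P R A B p 2 4 + (2 / 2) * A * mo P R A B p 1 4 + (4 / 2) * p * mo P R A B p 2 3 := by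
  refine (mo.eq_7 P R A B p 1 3).trans ?_
  simp only [Nat.reduceAdd, zero_add, Nat.cast_ofNat, Nat.cast_zero, Nat.cast_one]
  try ring

theorem mo_4_0 : mo P R A B p 4 0 =
    P * mo P R A B p 3 0 + (3 / 2) * A * mo P R A B p 2 0 := by
  refine (mo.eq_6 P R A B p 2).trans ?_
  simp only [Nat.reduceAdd, zero_add, Nat.cast_ofNat, Nat.cast_zero, Nat.cast_one]
  try ring

theorem mo_4_1 : mo P R A B p 4 1 =
    P * mo P R A B p 3 1 + (3 / 2) * A * mo P R A B p 2 1 + (1 / 2) * p * mo P R A B p 3 0 := by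
  refine (mo.eq_7 P R A B p 2 0).trans ?_
  simp only [Nat.reduceAdd, zero_add, Nat.cast_ofNat, Nat.cast_zero, Nat.cast_one]
  try ring

theorem mo_4_2 : mo P R A B p 4 2 =
    P * mo P R A B p 3 2 + (3 / 2) * A * mo P R A B p 2 2 + (2 / 2) * p * mo P R A B p 3 1 := by
  refine (mo.eq_7 P R A B p 2 1).trans ?_
  simp only [Nat.reduceAdd, zero_add, Nat.cast_ofNat, Nat.cast_zero, Nat.cast_one]
  try ring

theorem mo_4_3 : mo P R A B p 4 3 =
    P * mo P R A B p 3 3 + (3 / 2) * A * mo P R A B p 2 3 + (3 / 2) * p * mo P R A B p 3 2 := by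
  refine (mo.eq_7 P R A B p 2 2).trans ?_
  simp only [Nat.reduceAdd, zero_add, Nat.cast_ofNat, Nat.cast_zero, Nat.cast_one]
  try ring

theorem mo_4_4 : mo P R A B p 4 4 =
    P * mo P R A B p 3 4 + (3 / 2) * A * mo P R A B p 2 4 + (4 / 2) * p * mo P R A B p 3 3 := by
  refine (mo.eq_7 P R A B p 2 3).trans ?_
  simp only [Nat.reduceAdd, zero_add, Nat.cast_ofNat, Nat.cast_zero, Nat.cast_one]
  try ring


end Pool.Agent.H48.RE
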