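import Pool.Agent.H48.RE.Defs
import Pool.Agent.H48.RE.KerG

/-!
Verification of kernel lists.
-/

set_option autoImplicit false

open MeasureTheory Filter Topology Metric Set
open scoped RealInnerProductSpace ENNReal

namespace Pool.Agent.H48.RE

open Pool.Agent.RZ Pool.Agent.H1.LD Pool.Agent.H48.R7 Pool.Agent.H48.RG

variable {d : ℕ}

theorem ker_l0V : IsKer d 0 l0V := by
  refine isker_of ![-1 / 2, 1 / 2, 1, 1 / 32, 0, 0] fun P R p => ?_
  simp only [l0V, List.map_cons, List.map_nil, List.sum_cons, List.sum_nil,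
    Finset.sum_range_succ, Finset.sum_range_zero, qg, Fin.isValue, Matrix.cons_val_zero,
    Matrix.cons_val_one, Matrix.cons_val,
    mo_0_0, mo_0_1, mo_0_2, mo_0_3, mo_0_4, mo_1_0, mo_1_1, mo_1_2, mo_1_3, mo_1_4, mo_2_0,
    mo_2_1, mo_2_2, mo_2_3, mo_2_4, mo_3_0, mo_3_1, mo_3_2, mo_3_3, mo_3_4, mo_4_0, mo_4_1,
    mo_4_2, mo_4_3, mo_4_4]
  push_cast
  ring

end Pool.Agent.H48.RE
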