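import Pool.Agent.H48.RE.MolA

/-!
Averages of the kernel ‖x‖⁻¹^12 • x; kr 11 ε a = (‖a‖²+ε²)⁻¹^6.
-/

set_option autoImplicit false

open MeasureTheory Filter Topology Metric Set
open scoped RealInnerProductSpace ENNReal

namespace Pool.Agent.H48.RE

open Pool.Agent.RZ Pool.Agent.H1.LD Pool.Agent.H48.R7

variable {d : ℕ}

/-- the kernel -/
private noncomputable def REMolC_K (x : X d) : X d := ‖x‖⁻¹ ^ 12 • x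

private lemma REMolC_K_meas : Measurable (REMolC_K (d := d)) := by
  unfold REMolC_K
  exact ((measurable_norm.inv).pow_const 12).smul measurable_id

private lemma REMolC_K_norm (x : X d) : ‖REMolC_K x‖ = ‖x‖⁻¹ ^ 11 := by
  unfold REMolC_K
  rw [norm_smul, norm_pow, norm_inv, norm_norm]
  rcases eq_or_ne ‖x‖ 0 with h | h
  · rw [h]; simp
  · field_simp

private lemma REMolC_K_enorm (x : X d) : ‖REMolC_K x‖ₑ ≤ ‖x‖ₑ⁻¹ ^ 11 := by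
  rcases eq_or_ne x 0 with h | h
  · subst h; simp
  · have h0 : 0 < ‖x‖ := norm_pos_iff.2 h
    rw [← ofReal_norm, REMolC_K_norm, ← ofReal_norm,
      ← ENNReal.ofReal_inv_of_pos h0, ENNReal.ofReal_pow (inv_nonneg.2 h0.le)]

private lemma REMolC_kr (ε : ℝ) (a : X d) : kr 11 ε a = (‖a‖ ^ 2 + ε ^ 2)⁻¹ ^ 6 := by
  unfold kr
  have h : (0 : ℝ) ≤ ‖a‖ ^ 2 + ε ^ 2 := by positivity
  rw [show (11 + 1) = 2 * 6 by norm_num, pow_mul, inv_pow, Real.sq_sqrt h]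

/-- the difference of kernels -/
private lemma REMolC_diff {x y : X d} (hy : 0 < ‖y‖) (h1 : ‖y‖ / 2 ≤ ‖x‖)
    (h2 : ‖x‖ ≤ 3 / 2 * ‖y‖) :
    ‖REMolC_K x - REMolC_K y‖ ≤ 1060864 * ‖y‖⁻¹ ^ 12 * ‖x - y‖ := by
  have hx : 0 < ‖x‖ := by linarith [half_pos hy]
  have e : REMolC_K x - REMolC_K y =
      ‖x‖⁻¹ ^ 12 • (x - y) + (‖x‖⁻¹ ^ 12 - ‖y‖⁻¹ ^ 12) • y := by
    unfold REMolC_K
    rw [smul_sub, sub_smul]; abel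
  have hi : ‖x‖⁻¹ ≤ 2 * ‖y‖⁻¹ := by
    have := inv_anti₀ (half_pos hy) h1
    rwa [inv_div, div_eq_mul_inv] at this
  have hi4 : ‖x‖⁻¹ ^ 12 ≤ 4096 * ‖y‖⁻¹ ^ 12 := by
    calc ‖x‖⁻¹ ^ 12 ≤ (2 * ‖y‖⁻¹) ^ 12 := pow_le_pow_left₀ (by positivity) hi 12
      _ = 4096 * ‖y‖⁻¹ ^ 12 := by ring
  have hab : |‖y‖ - ‖x‖| ≤ ‖x - y‖ := by
    rw [abs_sub_comm]; exact abs_norm_sub_norm_le x y
  have e2 : ‖x‖⁻¹ ^ 12 - ‖y‖⁻¹ ^ 12 =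
      (‖x‖⁻¹ ^ 12 * ‖y‖⁻¹ ^ 12) *
        ((‖y‖ - ‖x‖) * ((‖y‖ + ‖x‖) * (‖y‖ ^ 10 + ‖y‖ ^ 8 * ‖x‖ ^ 2 + ‖y‖ ^ 6 * ‖x‖ ^ 4 + ‖y‖ ^ 4 * ‖x‖ ^ 6 +
          ‖y‖ ^ 2 * ‖x‖ ^ 8 + ‖x‖ ^ 10))) := by
    field_simp
    ring
  have h3 : |‖x‖⁻¹ ^ 12 - ‖y‖⁻¹ ^ 12| ≤ 1056768 * ‖y‖⁻¹ ^ 12 * ‖y‖⁻¹ * ‖x - y‖ := by
    rw [e2, abs_mul (‖x‖⁻¹ ^ 12 * ‖y‖⁻¹ ^ 12), abs_mul (‖y‖ - ‖x‖),
      abs_of_nonneg (by positivity : 0 ≤ ‖x‖⁻¹ ^ 12 * ‖y‖⁻¹ ^ 12),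
      abs_of_nonneg (by positivity :
        0 ≤ (‖y‖ + ‖x‖) * (‖y‖ ^ 10 + ‖y‖ ^ 8 * ‖x‖ ^ 2 + ‖y‖ ^ 6 * ‖x‖ ^ 4 + ‖y‖ ^ 4 * ‖x‖ ^ 6 +
          ‖y‖ ^ 2 * ‖x‖ ^ 8 + ‖x‖ ^ 10))]
    have h4 : (‖y‖ + ‖x‖) * (‖y‖ ^ 10 + ‖y‖ ^ 8 * ‖x‖ ^ 2 + ‖y‖ ^ 6 * ‖x‖ ^ 4 + ‖y‖ ^ 4 * ‖x‖ ^ 6 +
          ‖y‖ ^ 2 * ‖x‖ ^ 8 + ‖x‖ ^ 10) ≤ 258 * ‖y‖ ^ 11 := by
      have a1 : ‖y‖ + ‖x‖ ≤ 5 / 2 * ‖y‖ := by linarith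
      have a2 : ‖x‖ ^ 2 ≤ (3 / 2 * ‖y‖) ^ 2 := pow_le_pow_left₀ hx.le h2 2
      have a4 : ‖x‖ ^ 4 ≤ (3 / 2 * ‖y‖) ^ 4 := pow_le_pow_left₀ hx.le h2 4
      have a6 : ‖x‖ ^ 6 ≤ (3 / 2 * ‖y‖) ^ 6 := pow_le_pow_left₀ hx.le h2 6
      have a8 : ‖x‖ ^ 8 ≤ (3 / 2 * ‖y‖) ^ 8 := pow_le_pow_left₀ hx.le h2 8
      have a10 : ‖x‖ ^ 10 ≤ (3 / 2 * ‖y‖) ^ 10 := pow_le_pow_left₀ hx.le h2 10
      have b1 : ‖y‖ ^ 10 + ‖y‖ ^ 8 * ‖x‖ ^ 2 + ‖y‖ ^ 6 * ‖x‖ ^ 4 + ‖y‖ ^ 4 * ‖x‖ ^ 6 +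
          ‖y‖ ^ 2 * ‖x‖ ^ 8 + ‖x‖ ^ 10 ≤ 105469 / 1024 * ‖y‖ ^ 10 := by
        calc ‖y‖ ^ 10 + ‖y‖ ^ 8 * ‖x‖ ^ 2 + ‖y‖ ^ 6 * ‖x‖ ^ 4 + ‖y‖ ^ 4 * ‖x‖ ^ 6 +
              ‖y‖ ^ 2 * ‖x‖ ^ 8 + ‖x‖ ^ 10
            ≤ ‖y‖ ^ 10 + ‖y‖ ^ 8 * (3 / 2 * ‖y‖) ^ 2 + ‖y‖ ^ 6 * (3 / 2 * ‖y‖) ^ 4 +
              ‖y‖ ^ 4 * (3 / 2 * ‖y‖) ^ 6 + ‖y‖ ^ 2 * (3 / 2 * ‖y‖) ^ 8 +
              (3 / 2 * ‖y‖) ^ 10 := by gcongr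
          _ = 105469 / 1024 * ‖y‖ ^ 10 := by ring
      calc (‖y‖ + ‖x‖) * (‖y‖ ^ 10 + ‖y‖ ^ 8 * ‖x‖ ^ 2 + ‖y‖ ^ 6 * ‖x‖ ^ 4 + ‖y‖ ^ 4 * ‖x‖ ^ 6 +
          ‖y‖ ^ 2 * ‖x‖ ^ 8 + ‖x‖ ^ 10)
          ≤ (5 / 2 * ‖y‖) * (105469 / 1024 * ‖y‖ ^ 10) :=
            mul_le_mul a1 b1 (by positivity) (by positivity)
        _ = 527345 / 2048 * ‖y‖ ^ 11 := by ring
        _ ≤ 258 * ‖y‖ ^ 11 := by
            have := pow_pos hy 11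
            linarith
    calc ‖x‖⁻¹ ^ 12 * ‖y‖⁻¹ ^ 12 *
          (|‖y‖ - ‖x‖| * ((‖y‖ + ‖x‖) * (‖y‖ ^ 10 + ‖y‖ ^ 8 * ‖x‖ ^ 2 + ‖y‖ ^ 6 * ‖x‖ ^ 4 + ‖y‖ ^ 4 * ‖x‖ ^ 6 +
          ‖y‖ ^ 2 * ‖x‖ ^ 8 + ‖x‖ ^ 10)))
        ≤ (4096 * ‖y‖⁻¹ ^ 12) * ‖y‖⁻¹ ^ 12 * (‖x - y‖ * (258 * ‖y‖ ^ 11)) := by
          gcongr
      _ = 1056768 * ‖y‖⁻¹ ^ 12 * ‖y‖⁻¹ * ‖x - y‖ := by
          field_simp
          ring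
  rw [e]
  calc ‖‖x‖⁻¹ ^ 12 • (x - y) + (‖x‖⁻¹ ^ 12 - ‖y‖⁻¹ ^ 12) • y‖
      ≤ ‖x‖⁻¹ ^ 12 * ‖x - y‖ + |‖x‖⁻¹ ^ 12 - ‖y‖⁻¹ ^ 12| * ‖y‖ := by
        refine (norm_add_le _ _).trans (add_le_add ?_ ?_)
        · rw [norm_smul, norm_pow, norm_inv, norm_norm]
        · rw [norm_smul, Real.norm_eq_abs]
    _ ≤ (4096 * ‖y‖⁻¹ ^ 12) * ‖x - y‖ + (1056768 * ‖y‖⁻¹ ^ 12 * ‖y‖⁻¹ * ‖x - y‖) * ‖y‖ := by
        gcongr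
    _ = 1060864 * ‖y‖⁻¹ ^ 12 * ‖x - y‖ := by
        field_simp
        ring

private lemma REMolC_ball : ∀ᵐ w ∂(Pb d), w ∈ closedBall (0 : X d) 1 := by
  unfold Pb
  exact Measure.ae_smul_measure (ae_restrict_mem measurableSet_closedBall) _

theorem avg_ker11 (hd : 12 ≤ d) : ∃ C : ℝ, 0 < C ∧ ∀ (ε : ℝ), 0 < ε → ∀ a : X d,
    ∀ w ∈ closedBall (0 : X d) 1,
    ‖(∫ w', ‖a + ε • (w - w')‖⁻¹ ^ 12 • (a + ε • (w - w')) ∂(Pb d)) - kr 11 ε a • a‖ ≤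
      C * (ε * kr 11 ε a) := by
  obtain ⟨C₁, hC₁, hloc⟩ := avg_loc11 (d := d) hd
  have := Pb_prob d
  refine ⟨24137569 * (C₁ + 1) + 5000000, by positivity, fun ε hε a w hw => ?_⟩
  have hkr : kr 11 ε a = (‖a‖ ^ 2 + ε ^ 2)⁻¹ ^ 6 := REMolC_kr ε a
  have hw1 : ‖w‖ ≤ 1 := by simpa using hw
  have hk0 : 0 < kr 11 ε a := by rw [hkr]; positivity
  change ‖(∫ w', REMolC_K (a + ε • (w - w')) ∂(Pb d)) - kr 11 ε a • a‖ ≤ _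
  rcases lt_or_ge ‖a‖ (4 * ε) with hn | hf
  · -- near case
    have n1 : ‖∫ w', REMolC_K (a + ε • (w - w')) ∂(Pb d)‖ ≤ ε⁻¹ ^ 11 * C₁ := by
      have l1 : ∫⁻ w', ‖REMolC_K (a + ε • (w - w'))‖ₑ ∂(Pb d) ≤
          ENNReal.ofReal (ε⁻¹ ^ 11 * C₁) := by
        calc ∫⁻ w', ‖REMolC_K (a + ε • (w - w'))‖ₑ ∂(Pb d)
            ≤ ∫⁻ w', ENNReal.ofReal (ε⁻¹ ^ 11) * ‖-(ε⁻¹ • a + w) + w'‖ₑ⁻¹ ^ 11 ∂(Pb d) := by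
              refine lintegral_mono fun w' => (REMolC_K_enorm _).trans (le_of_eq ?_)
              have : a + ε • (w - w') = ε • (-(-(ε⁻¹ • a + w) + w')) := by
                rw [neg_add, neg_neg, smul_add, smul_add, smul_sub, smul_neg, smul_smul,
                  mul_inv_cancel₀ hε.ne', one_smul]
                abel
              rw [this, enorm_smul, enorm_neg, Real.enorm_eq_ofReal hε.le,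
                ENNReal.mul_inv (Or.inl (by simpa using hε)) (Or.inl ENNReal.ofReal_ne_top),
                mul_pow, ← ENNReal.ofReal_inv_of_pos hε,
                ← ENNReal.ofReal_pow (inv_nonneg.2 hε.le)]
          _ = ENNReal.ofReal (ε⁻¹ ^ 11) * ∫⁻ w', ‖-(ε⁻¹ • a + w) + w'‖ₑ⁻¹ ^ 11 ∂(Pb d) :=
              lintegral_const_mul' _ _ ENNReal.ofReal_ne_top
          _ ≤ ENNReal.ofReal (ε⁻¹ ^ 11) * ENNReal.ofReal C₁ := by gcongr; exact hloc _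
          _ = ENNReal.ofReal (ε⁻¹ ^ 11 * C₁) := (ENNReal.ofReal_mul (by positivity)).symm
      have l2 := (enorm_integral_le_lintegral_enorm
        (fun w' => REMolC_K (a + ε • (w - w'))) (μ := Pb d)).trans l1
      rw [← ofReal_norm] at l2
      exact (ENNReal.ofReal_le_ofReal_iff (by positivity)).1 l2
    have n2 : ‖kr 11 ε a • a‖ ≤ ε⁻¹ ^ 11 := by
      rw [norm_smul, Real.norm_eq_abs, abs_of_pos hk0, hkr, inv_pow, inv_pow]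
      rw [inv_mul_le_iff₀ (by positivity), ← div_eq_mul_inv, le_div_iff₀ (by positivity)]
      have b1 : ‖a‖ * ε ≤ ‖a‖ ^ 2 + ε ^ 2 := by
        nlinarith [sq_nonneg (‖a‖ - ε), sq_nonneg ‖a‖, sq_nonneg ε]
      have b2 : ε ^ 2 ≤ ‖a‖ ^ 2 + ε ^ 2 := by nlinarith [sq_nonneg ‖a‖]
      calc ‖a‖ * ε ^ 11 = (‖a‖ * ε) * (ε ^ 2) ^ 5 := by ring
        _ ≤ (‖a‖ ^ 2 + ε ^ 2) * (‖a‖ ^ 2 + ε ^ 2) ^ 5 := by gcongr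
        _ = (‖a‖ ^ 2 + ε ^ 2) ^ 6 := by ring
    have n3 : ε⁻¹ ^ 11 ≤ 24137569 * (ε * kr 11 ε a) := by
      rw [hkr, inv_pow, inv_pow]
      rw [inv_le_iff_one_le_mul₀ (by positivity)]
      have h1 : ‖a‖ ^ 2 + ε ^ 2 ≤ 17 * ε ^ 2 := by
        have := pow_le_pow_left₀ (norm_nonneg a) hn.le 2
        nlinarith
      have h2 : (‖a‖ ^ 2 + ε ^ 2) ^ 6 ≤ (17 * ε ^ 2) ^ 6 := pow_le_pow_left₀ (by positivity) h1 6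
      have h3 : 1 ≤ 24137569 * ε ^ 12 * ((‖a‖ ^ 2 + ε ^ 2) ^ 6)⁻¹ := by
        rw [← div_eq_mul_inv, le_div_iff₀ (by positivity)]
        calc 1 * (‖a‖ ^ 2 + ε ^ 2) ^ 6 ≤ (17 * ε ^ 2) ^ 6 := by rw [one_mul]; exact h2
          _ = 24137569 * ε ^ 12 := by ring
      calc (1 : ℝ) ≤ 24137569 * ε ^ 12 * ((‖a‖ ^ 2 + ε ^ 2) ^ 6)⁻¹ := h3
        _ = 24137569 * (ε * ((‖a‖ ^ 2 + ε ^ 2) ^ 6)⁻¹) * ε ^ 11 := by ring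
    calc ‖(∫ w', REMolC_K (a + ε • (w - w')) ∂(Pb d)) - kr 11 ε a • a‖
        ≤ ε⁻¹ ^ 11 * C₁ + ε⁻¹ ^ 11 := (norm_sub_le _ _).trans (add_le_add n1 n2)
      _ = (C₁ + 1) * ε⁻¹ ^ 11 := by ring
      _ ≤ (C₁ + 1) * (24137569 * (ε * kr 11 ε a)) := by gcongr
      _ ≤ (24137569 * (C₁ + 1) + 5000000) * (ε * kr 11 ε a) := by nlinarith [mul_pos hε hk0]
  · -- far case
    have ha : 0 < ‖a‖ := by linarith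
    have hb : ∀ w' ∈ closedBall (0 : X d) 1, ‖ε • (w - w')‖ ≤ 2 * ε := by
      intro w' hw'
      have hw2 : ‖w'‖ ≤ 1 := by simpa using hw'
      rw [norm_smul, Real.norm_eq_abs, abs_of_pos hε]
      nlinarith [norm_sub_le w w']
    have hd1 : ∀ w' ∈ closedBall (0 : X d) 1,
        ‖REMolC_K (a + ε • (w - w')) - REMolC_K a‖ ≤ 2121728 * ε * ‖a‖⁻¹ ^ 12 := by
      intro w' hw'
      have hb1 := hb w' hw'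
      have t1 : ‖a‖ - ‖ε • (w - w')‖ ≤ ‖a + ε • (w - w')‖ := by
        have := norm_sub_norm_le a (-(ε • (w - w')))
        rwa [norm_neg, sub_neg_eq_add] at this
      have t2 : ‖a + ε • (w - w')‖ ≤ ‖a‖ + ‖ε • (w - w')‖ := norm_add_le _ _
      refine (REMolC_diff ha (by linarith) (by linarith)).trans ?_
      rw [add_sub_cancel_left]
      calc 1060864 * ‖a‖⁻¹ ^ 12 * ‖ε • (w - w')‖ ≤ 1060864 * ‖a‖⁻¹ ^ 12 * (2 * ε) := by gcongr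
        _ = 2121728 * ε * ‖a‖⁻¹ ^ 12 := by ring
    have hint : Integrable (fun w' => REMolC_K (a + ε • (w - w')) - REMolC_K a) (Pb d) := by
      refine Integrable.of_bound (C := 2121728 * ε * ‖a‖⁻¹ ^ 12) ?_ ?_
      · refine ((REMolC_K_meas.comp ?_).sub_const _).aestronglyMeasurable
        fun_prop
      · filter_upwards [REMolC_ball] with w' hw' using hd1 w' hw'
    have hint2 : Integrable (fun w' => REMolC_K (a + ε • (w - w'))) (Pb d) := by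
      have := hint.add (integrable_const (REMolC_K a))
      refine this.congr (Eventually.of_forall fun w' => ?_)
      simp
    have f1 : ‖(∫ w', REMolC_K (a + ε • (w - w')) ∂(Pb d)) - REMolC_K a‖ ≤
        2121728 * ε * ‖a‖⁻¹ ^ 12 := by
      have e1 : (∫ w', REMolC_K (a + ε • (w - w')) ∂(Pb d)) - REMolC_K a =
          ∫ w', (REMolC_K (a + ε • (w - w')) - REMolC_K a) ∂(Pb d) := by
        rw [integral_sub hint2 (integrable_const _), integral_const]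
        simp
      rw [e1]
      have := norm_integral_le_of_norm_le_const (μ := Pb d)
        (f := fun w' => REMolC_K (a + ε • (w - w')) - REMolC_K a) (C := 2121728 * ε * ‖a‖⁻¹ ^ 12)
        (by filter_upwards [REMolC_ball] with w' hw' using hd1 w' hw')
      simpa using this
    have hAE : 16 * ε ^ 2 ≤ ‖a‖ ^ 2 := by
      have := pow_le_pow_left₀ (by positivity) hf 2
      nlinarith
    have hk1 : kr 11 ε a ≤ ‖a‖⁻¹ ^ 12 := by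
      rw [hkr, inv_pow, inv_pow]
      refine inv_anti₀ (by positivity) ?_
      calc ‖a‖ ^ 12 = (‖a‖ ^ 2) ^ 6 := by ring
        _ ≤ (‖a‖ ^ 2 + ε ^ 2) ^ 6 := by
            gcongr
            exact le_add_of_nonneg_right (sq_nonneg ε)
    have hk2 : ‖a‖⁻¹ ^ 12 ≤ 2 * kr 11 ε a := by
      rw [hkr, inv_pow, inv_pow, ← div_eq_mul_inv, inv_eq_one_div,
        div_le_div_iff₀ (by positivity) (by positivity)]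
      have h2 : ‖a‖ ^ 2 + ε ^ 2 ≤ 17 / 16 * ‖a‖ ^ 2 := by linarith
      have h3 := pow_le_pow_left₀ (by positivity) h2 6
      have h4 : (17 / 16 * ‖a‖ ^ 2) ^ 6 = 24137569 / 16777216 * ‖a‖ ^ 12 := by ring
      rw [h4] at h3
      have h5 := pow_pos ha 12
      linarith
    have f2 : ‖REMolC_K a - kr 11 ε a • a‖ ≤ 2 * ε * ‖a‖⁻¹ ^ 12 := by
      unfold REMolC_K
      rw [← sub_smul, norm_smul, Real.norm_eq_abs, abs_of_nonneg (by linarith), hkr]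
      have e : ‖a‖⁻¹ ^ 12 - (‖a‖ ^ 2 + ε ^ 2)⁻¹ ^ 6 =
          (ε ^ 2 * (6 * ‖a‖ ^ 10 + 15 * ‖a‖ ^ 8 * ε ^ 2 + 20 * ‖a‖ ^ 6 * ε ^ 4 +
            15 * ‖a‖ ^ 4 * ε ^ 6 + 6 * ‖a‖ ^ 2 * ε ^ 8 + ε ^ 10)) *
            (‖a‖⁻¹ ^ 12 * (‖a‖ ^ 2 + ε ^ 2)⁻¹ ^ 6) := by
        field_simp
        ring
      rw [e]
      have h5 : (‖a‖ ^ 2 + ε ^ 2)⁻¹ ^ 6 ≤ ‖a‖⁻¹ ^ 12 := by rw [← hkr]; exact hk1
      have h8 : 6 * ‖a‖ ^ 10 + 15 * ‖a‖ ^ 8 * ε ^ 2 + 20 * ‖a‖ ^ 6 * ε ^ 4 +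
            15 * ‖a‖ ^ 4 * ε ^ 6 + 6 * ‖a‖ ^ 2 * ε ^ 8 + ε ^ 10 ≤ 8 * ‖a‖ ^ 10 := by
        have q1 : ε ^ 2 ≤ ‖a‖ ^ 2 / 16 := by linarith
        have q2 : (ε ^ 2) ^ 2 ≤ (‖a‖ ^ 2 / 16) ^ 2 := pow_le_pow_left₀ (sq_nonneg ε) q1 2
        have q3 : (ε ^ 2) ^ 3 ≤ (‖a‖ ^ 2 / 16) ^ 3 := pow_le_pow_left₀ (sq_nonneg ε) q1 3
        have q4 : (ε ^ 2) ^ 4 ≤ (‖a‖ ^ 2 / 16) ^ 4 := pow_le_pow_left₀ (sq_nonneg ε) q1 4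
        have q5 : (ε ^ 2) ^ 5 ≤ (‖a‖ ^ 2 / 16) ^ 5 := pow_le_pow_left₀ (sq_nonneg ε) q1 5
        have r1 : ‖a‖ ^ 8 * ε ^ 2 ≤ ‖a‖ ^ 8 * (‖a‖ ^ 2 / 16) := by gcongr
        have r2 : ‖a‖ ^ 6 * ε ^ 4 ≤ ‖a‖ ^ 6 * (‖a‖ ^ 2 / 16) ^ 2 := by
          have : ε ^ 4 = (ε ^ 2) ^ 2 := by ring
          rw [this]; gcongr
        have r3 : ‖a‖ ^ 4 * ε ^ 6 ≤ ‖a‖ ^ 4 * (‖a‖ ^ 2 / 16) ^ 3 := by
          have : ε ^ 6 = (ε ^ 2) ^ 3 := by ring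
          rw [this]; gcongr
        have r4 : ‖a‖ ^ 2 * ε ^ 8 ≤ ‖a‖ ^ 2 * (‖a‖ ^ 2 / 16) ^ 4 := by
          have : ε ^ 8 = (ε ^ 2) ^ 4 := by ring
          rw [this]; gcongr
        have r5 : ε ^ 10 ≤ (‖a‖ ^ 2 / 16) ^ 5 := by
          have : ε ^ 10 = (ε ^ 2) ^ 5 := by ring
          rw [this]; exact q5
        have s1 : ‖a‖ ^ 8 * (‖a‖ ^ 2 / 16) = ‖a‖ ^ 10 / 16 := by ring
        have s2 : ‖a‖ ^ 6 * (‖a‖ ^ 2 / 16) ^ 2 = ‖a‖ ^ 10 / 256 := by ring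
        have s3 : ‖a‖ ^ 4 * (‖a‖ ^ 2 / 16) ^ 3 = ‖a‖ ^ 10 / 4096 := by ring
        have s4 : ‖a‖ ^ 2 * (‖a‖ ^ 2 / 16) ^ 4 = ‖a‖ ^ 10 / 65536 := by ring
        have s5 : (‖a‖ ^ 2 / 16) ^ 5 = ‖a‖ ^ 10 / 1048576 := by ring
        rw [s1] at r1
        rw [s2] at r2
        rw [s3] at r3
        rw [s4] at r4
        rw [s5] at r5
        have r7 := pow_pos ha 10
        linarith
      have h6 : ε ^ 2 * (8 * ‖a‖ ^ 10) * ‖a‖⁻¹ ^ 12 * ‖a‖ ≤ 2 * ε := by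
        have e6 : ε ^ 2 * (8 * ‖a‖ ^ 10) * ‖a‖⁻¹ ^ 12 * ‖a‖ = 8 * ε * (ε * ‖a‖⁻¹) := by
          field_simp
        rw [e6]
        have h7 : ε * ‖a‖⁻¹ ≤ 1 / 4 := by
          rw [← div_eq_mul_inv, div_le_iff₀ ha]
          linarith
        nlinarith
      calc ε ^ 2 * (6 * ‖a‖ ^ 10 + 15 * ‖a‖ ^ 8 * ε ^ 2 + 20 * ‖a‖ ^ 6 * ε ^ 4 +
            15 * ‖a‖ ^ 4 * ε ^ 6 + 6 * ‖a‖ ^ 2 * ε ^ 8 + ε ^ 10) *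
            (‖a‖⁻¹ ^ 12 * (‖a‖ ^ 2 + ε ^ 2)⁻¹ ^ 6) * ‖a‖
          ≤ ε ^ 2 * (8 * ‖a‖ ^ 10) * (‖a‖⁻¹ ^ 12 * ‖a‖⁻¹ ^ 12) * ‖a‖ := by gcongr
        _ = (ε ^ 2 * (8 * ‖a‖ ^ 10) * ‖a‖⁻¹ ^ 12 * ‖a‖) * ‖a‖⁻¹ ^ 12 := by ring
        _ ≤ 2 * ε * ‖a‖⁻¹ ^ 12 := by gcongr
    calc ‖(∫ w', REMolC_K (a + ε • (w - w')) ∂(Pb d)) - kr 11 ε a • a‖
        ≤ 2121728 * ε * ‖a‖⁻¹ ^ 12 + 2 * ε * ‖a‖⁻¹ ^ 12 := by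
          have := norm_add_le ((∫ w', REMolC_K (a + ε • (w - w')) ∂(Pb d)) - REMolC_K a)
            (REMolC_K a - kr 11 ε a • a)
          rw [sub_add_sub_cancel] at this
          exact this.trans (add_le_add f1 f2)
      _ = 2121730 * ε * ‖a‖⁻¹ ^ 12 := by ring
      _ ≤ 2121730 * ε * (2 * kr 11 ε a) := by gcongr
      _ ≤ (24137569 * (C₁ + 1) + 5000000) * (ε * kr 11 ε a) := by nlinarith [mul_pos hε hk0]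

end Pool.Agent.H48.RE
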