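import Pool.Agent.H48.RE.Ka
import Pool.Agent.H48.RE.Kb
import Pool.Agent.H48.RE.Kc
import Pool.Agent.H48.RE.Kd
import Pool.Agent.H48.RE.Ke
import Pool.Agent.H48.RE.Kf

/-!
Admissibility of the atoms in dimension eleven.
-/

set_option autoImplicit false

open MeasureTheory Filter Topology Metric Set
open scoped RealInnerProductSpace ENNReal

namespace Pool.Agent.H48.RE

open Pool.Agent.RZ Pool.Agent.H1.LD Pool.Agent.H48.R7 Pool.Agent.H48.RG

variable {d : ℕ}

/-- the decidable part of admissibility -/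
def okB (N : ℕ) (A : At) : Bool :=
  decide (0 ≤ A.c) && decide (2 * A.m + A.k = A.j + N) && decide (A.j + 4 ≤ 2 * A.m) &&
    A.L.all fun μ => decide (1 ≤ A.k + wt μ) && decide (2 * (A.k + μ.2.2.1 + μ.2.2.2) ≤ N)

theorem ok_of {N : ℕ} {A : At} (h : okB N A = true) (hk : IsKer d A.k A.L) : OK d N A := by
  unfold okB at h
  simp only [Bool.and_eq_true, decide_eq_true_eq, List.all_eq_true] at h
  exact ⟨h.1.1.1, h.1.1.2, h.1.2, fun μ hμ => h.2 μ hμ, hk⟩

theorem okB11 : (T11.all fun A => okB 11 A) = true := by decide +kernel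

theorem ker11 : ∀ A ∈ T11, IsKer d A.k A.L := by
  intro A hA
  simp only [T11, R11, A1, List.mem_cons, List.not_mem_nil, or_false] at hA
  rcases hA with rfl | rfl | rfl | rfl | rfl | rfl | rfl | rfl | rfl | rfl | rfl | rfl | rfl |
    rfl | rfl
  · exact ker_l1A
  · exact ker_l1A
  · exact ker_l2D
  · exact ker_l1A
  · exact ker_l2U
  · exact ker_l0D
  · exact ker_l0V
  · exact ker_l1X
  · exact ker_l3D
  · exact ker_l1V
  · exact ker_l0A
  · exact ker_l1A
  · exact ker_l1D
  · exact ker_l1D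
  · exact ker_l1DD

theorem ok11 : ∀ A ∈ T11, OK d 11 A := by
  intro A hA
  exact ok_of (List.all_eq_true.1 okB11 A hA) (ker11 A hA)

end Pool.Agent.H48.RE
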