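import Mathlib

/-!
Dense integer polynomials in two variables.
-/

set_option autoImplicit false

namespace Pool.Agent.H48.RE

/-- addition -/
def lad : List ℤ → List ℤ → List ℤ
  | [], q => q
  | a :: p, [] => a :: p
  | a :: p, b :: q => (a + b) :: lad p q

/-- multiplication -/
def lmu : List ℤ → List ℤ → List ℤ
  | [], _ => []
  | a :: p, q => lad (q.map fun b => a * b) (0 :: lmu p q)

/-- evaluation -/
noncomputable def lev (x : ℝ) : List ℤ → ℝ
  | [] => 0
  | a :: p => a + x * lev x p

theorem lev_lad (x : ℝ) : ∀ p q : List ℤ, lev x (lad p q) = lev x p + lev x q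
  | [], q => by simp [lad, lev]
  | a :: p, [] => by simp [lad, lev]
  | a :: p, b :: q => by
    simp only [lad, lev]
    rw [lev_lad x p q]
    push_cast
    ring

theorem lev_map (x : ℝ) (a : ℤ) : ∀ q : List ℤ, lev x (q.map fun b => a * b) = a * lev x q
  | [] => by simp [lev]
  | b :: q => by
    simp only [List.map_cons, lev]
    rw [lev_map x a q]
    push_cast
    ring

theorem lev_lmu (x : ℝ) : ∀ p q : List ℤ, lev x (lmu p q) = lev x p * lev x q
  | [], q => by simp [lmu, lev]
  | a :: p, q => by
    simp only [lmu, lev]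
    rw [lev_lad, lev_map]
    simp only [lev]
    rw [lev_lmu x p q]
    push_cast
    ring

/-- addition -/
def mad : List (List ℤ) → List (List ℤ) → List (List ℤ)
  | [], q => q
  | a :: p, [] => a :: p
  | a :: p, b :: q => lad a b :: mad p q

/-- multiplication -/
def mmu : List (List ℤ) → List (List ℤ) → List (List ℤ)
  | [], _ => []
  | a :: p, q => mad (q.map fun b => lmu a b) ([] :: mmu p q)

/-- evaluation -/
noncomputable def mev (x y : ℝ) : List (List ℤ) → ℝ
  | [] => 0
  | a :: p => lev x a + y * mev x y p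

theorem mev_mad (x y : ℝ) : ∀ p q : List (List ℤ), mev x y (mad p q) = mev x y p + mev x y q
  | [], q => by simp [mad, mev]
  | a :: p, [] => by simp [mad, mev]
  | a :: p, b :: q => by
    simp only [mad, mev]
    rw [lev_lad, mev_mad x y p q]
    ring

theorem mev_map (x y : ℝ) (a : List ℤ) : ∀ q : List (List ℤ),
    mev x y (q.map fun b => lmu a b) = lev x a * mev x y q
  | [] => by simp [mev]
  | b :: q => by
    simp only [List.map_cons, mev]
    rw [mev_map x y a q, lev_lmu]
    ring

theorem mev_mmu (x y : ℝ) : ∀ p q : List (List ℤ), mev x y (mmu p q) = mev x y p * mev x y q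
  | [], q => by simp [mmu, mev]
  | a :: p, q => by
    simp only [mmu, mev]
    rw [mev_mad, mev_map]
    simp only [mev, lev]
    rw [mev_mmu x y p q]
    ring

/-- powers -/
def mpw (p : List (List ℤ)) : ℕ → List (List ℤ)
  | 0 => [[1]]
  | n + 1 => mmu p (mpw p n)

theorem mev_mpw (x y : ℝ) (p : List (List ℤ)) : ∀ n : ℕ, mev x y (mpw p n) = mev x y p ^ n
  | 0 => by simp [mpw, mev, lev]
  | n + 1 => by
    simp only [mpw]
    rw [mev_mmu, mev_mpw x y p n, pow_succ]
    ring

/-- the zero polynomial -/
def mzr (p : List (List ℤ)) : Bool := p.all fun q => q.all fun a => a == 0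

theorem lev_zero (x : ℝ) : ∀ p : List ℤ, (p.all fun a => a == 0) = true → lev x p = 0
  | [], _ => rfl
  | a :: p, h => by
    simp only [List.all_cons, Bool.and_eq_true, beq_iff_eq] at h
    simp only [lev]
    rw [lev_zero x p h.2, h.1]
    simp

theorem mev_zero (x y : ℝ) : ∀ p : List (List ℤ), mzr p = true → mev x y p = 0
  | [], _ => rfl
  | a :: p, h => by
    unfold mzr at h
    simp only [List.all_cons, Bool.and_eq_true] at h
    simp only [mev]
    rw [mev_zero x y p h.2, lev_zero x a h.1]
    simp

/-- the polynomial of a list of terms `(v, y, z, e)` : `v p ^ y s ^ z c ^ e` -/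
def gpo (p s c : List (List ℤ)) : List (ℤ × ℕ × ℕ × ℕ) → List (List ℤ)
  | [] => []
  | μ :: L => mad (mmu [[μ.1]] (mmu (mpw p μ.2.1) (mmu (mpw s μ.2.2.1) (mpw c μ.2.2.2))))
      (gpo p s c L)

end Pool.Agent.H48.RE
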