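import Pool.Agent.H48.RE.Ev
import Pool.Agent.H48.RE.Pol

/-!
Verification of the identity by integer polynomial arithmetic.
-/

set_option autoImplicit false

open MeasureTheory Filter Topology Metric Set
open scoped RealInnerProductSpace ENNReal

namespace Pool.Agent.H48.RE

open Pool.Agent.RZ Pool.Agent.H1.LD Pool.Agent.H48.R7 Pool.Agent.H48.RG

variable {d : ℕ}

/-- integer data of an atom: `n`, `D`, `m`, `j` and the terms `(v, y, z, e)` -/
abbrev Dt : Type := ℤ × ℤ × ℕ × ℕ × List (ℤ × ℕ × ℕ × ℕ)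

/-- the polynomial of the data -/
def tot (M : ℕ) (A B C : List (List ℤ)) : List Dt → List (List ℤ)
  | [] => []
  | t :: T => mad (mmu [[t.1]] (mmu (mpw A (M - t.2.2.1)) (mmu (mpw B (M - t.2.2.1))
      (mmu (mpw (mad A (mad B (mmu [[-1]] C))) t.2.2.2.1)
        (gpo (mad A (mad B (mmu [[-1]] C)))
          (mmu (mad A (mad C (mmu [[-1]] B))) (mad B (mad C (mmu [[-1]] A)))) C t.2.2.2.2)))))
      (tot M A B C T)

/-- the real polynomial of terms -/
noncomputable def gr (p s c : ℝ) : List (ℤ × ℕ × ℕ × ℕ) → ℝ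
  | [] => 0
  | μ :: L => μ.1 * (p ^ μ.2.1 * (s ^ μ.2.2.1 * c ^ μ.2.2.2)) + gr p s c L

/-- the real polynomial of the data -/
noncomputable def rtot (M : ℕ) (A B C : ℝ) : List Dt → ℝ
  | [] => 0
  | t :: T => t.1 * (A ^ (M - t.2.2.1) * (B ^ (M - t.2.2.1) * ((A + B - C) ^ t.2.2.2.1 *
      gr (A + B - C) ((A + C - B) * (B + C - A)) C t.2.2.2.2))) + rtot M A B C T

theorem mev_gpo (x y : ℝ) (p s c : List (List ℤ)) : ∀ L : List (ℤ × ℕ × ℕ × ℕ),
    mev x y (gpo p s c L) = gr (mev x y p) (mev x y s) (mev x y c) L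
  | [] => rfl
  | μ :: L => by
    simp only [gpo, gr]
    rw [mev_mad, mev_mmu, mev_mmu, mev_mmu, mev_mpw, mev_mpw, mev_mpw, mev_gpo x y p s c L]
    simp [mev, lev]

theorem mev_tot (x y : ℝ) (M : ℕ) (A B C : List (List ℤ)) : ∀ T : List Dt,
    mev x y (tot M A B C T) = rtot M (mev x y A) (mev x y B) (mev x y C) T
  | [] => rfl
  | t :: T => by
    simp only [tot, rtot]
    have e : ∀ P Q R : List (List ℤ), mev x y (mad P (mad Q (mmu [[-1]] R))) =
        mev x y P + mev x y Q - mev x y R := by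
      intro P Q R
      rw [mev_mad, mev_mad, mev_mmu]
      simp [mev, lev]
      ring
    rw [mev_mad, mev_mmu, mev_mmu, mev_mmu, mev_mmu, mev_mpw, mev_mpw, mev_mpw, mev_gpo,
      mev_tot x y M A B C T, mev_mmu, e, e, e]
    simp [mev, lev]

/-- the terms agree up to the factor `D` -/
def okL (M k : ℕ) (D : ℤ) : List Mn → List (ℤ × ℕ × ℕ × ℕ) → Bool
  | [], [] => true
  | μ :: L, ν :: L' =>
    decide ((ν.1 : ℚ) * 2 ^ (ν.2.1 + 2 * ν.2.2.1) * 2 =
      D * μ.1 * ((k + wt μ - 1).factorial : ℕ)) &&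
    decide (ν.2.1 = μ.2.2.1) && decide (ν.2.2.1 = μ.2.2.2) &&
    decide (ν.2.2.2 = M - (k + μ.2.2.1 + 2 * μ.2.2.2)) && okL M k D L L'
  | _, _ => false

/-- the atoms agree up to the factor `K` -/
def okT (M : ℕ) (K : ℤ) : List At → List Dt → Bool
  | [], [] => true
  | T :: Ts, t :: ts =>
    decide ((K : ℚ) * T.c = t.1 * t.2.1 * 2 ^ T.j) && decide (t.2.2.1 = T.m) &&
    decide (t.2.2.2.1 = T.j) && okL M T.k t.2.1 T.L t.2.2.2.2 && okT M K Ts ts
  | _, _ => false

theorem okL_gr {M k : ℕ} {D : ℤ} {p S C : ℝ} : ∀ {L : List Mn} {L' : List (ℤ × ℕ × ℕ × ℕ)},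
    okL M k D L L' = true →
    gr (2 * p) (4 * S) C L' = D * (L.map fun μ => pm M k μ p S C).sum
  | [], [], _ => by simp [gr]
  | [], _ :: _, h => by simp [okL] at h
  | _ :: _, [], h => by simp [okL] at h
  | μ :: L, ν :: L', h => by
    simp only [okL, Bool.and_eq_true, decide_eq_true_eq] at h
    obtain ⟨⟨⟨⟨h1, h2⟩, h3⟩, h4⟩, h5⟩ := h
    simp only [gr, List.map_cons, List.sum_cons]
    rw [okL_gr h5, mul_add]
    congr 1
    have h1' : (ν.1 : ℝ) * 2 ^ (ν.2.1 + 2 * ν.2.2.1) * 2 =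
        D * (μ.1 : ℝ) * ((k + wt μ - 1).factorial : ℕ) := by
      have := congrArg (fun q : ℚ => (q : ℝ)) h1
      push_cast at this
      exact this
    unfold pm
    rw [h4, mul_pow, mul_pow]
    have e4 : (4 : ℝ) ^ ν.2.2.1 = 2 ^ (2 * ν.2.2.1) := by
      rw [pow_mul]; norm_num
    rw [e4, ← h2, ← h3]
    have e5 : (ν.1 : ℝ) * 2 ^ (ν.2.1 + 2 * ν.2.2.1) =
        D * (μ.1 : ℝ) * (((k + wt μ - 1).factorial : ℕ) / 2) := by linarith
    rw [pow_add] at e5
    linear_combination (p ^ ν.2.1 * S ^ ν.2.2.1 *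
      C ^ (M - (k + ν.2.1 + 2 * ν.2.2.1))) * e5

theorem okT_rtot {M : ℕ} {K : ℤ} {A B C : ℝ} : ∀ {T : List At} {Ds : List Dt},
    okT M K T Ds = true → rtot M A B C Ds = K * PW M T A B C
  | [], [], _ => by simp [rtot, PW]
  | [], _ :: _, h => by simp [okT] at h
  | _ :: _, [], h => by simp [okT] at h
  | T :: Ts, t :: ts, h => by
    simp only [okT, Bool.and_eq_true, decide_eq_true_eq] at h
    obtain ⟨⟨⟨⟨h1, h2⟩, h3⟩, h4⟩, h5⟩ := h
    have ih := okT_rtot (A := A) (B := B) (C := C) h5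
    unfold PW at ih ⊢
    simp only [rtot, List.map_cons, List.sum_cons]
    rw [ih, mul_add]
    congr 1
    have h1' : (K : ℝ) * (T.c : ℝ) = t.1 * t.2.1 * 2 ^ T.j := by
      have := congrArg (fun q : ℚ => (q : ℝ)) h1
      push_cast at this
      exact this
    have e1 : A + B - C = 2 * ((A + B - C) / 2) := by ring
    have e2 : (A + C - B) * (B + C - A) = 4 * ((A + C - B) * (B + C - A) / 4) := by ring
    have h6 := okL_gr (p := (A + B - C) / 2) (S := (A + C - B) * (B + C - A) / 4) (C := C) h4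
    rw [← e1, ← e2] at h6
    unfold pw
    rw [h6, h2, h3]
    have e3 : (A + B - C) ^ T.j = 2 ^ T.j * ((A + B - C) / 2) ^ T.j := by
      rw [← mul_pow]
      congr 1
    rw [e3]
    linear_combination (-(A ^ (M - T.m) * B ^ (M - T.m) * ((A + B - C) / 2) ^ T.j *
      (T.L.map fun μ => pm M T.k μ ((A + B - C) / 2) ((A + C - B) * (B + C - A) / 4) C).sum)) * h1'

/-- homogeneity -/
def hmL (h : ℕ) : List (ℤ × ℕ × ℕ × ℕ) → Bool
  | [] => true
  | ν :: L => decide (ν.2.1 + 2 * ν.2.2.1 + ν.2.2.2 = h) && hmL h L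

def hmT (M E : ℕ) : List Dt → Bool
  | [] => true
  | t :: T => decide (2 * (M - t.2.2.1) + t.2.2.2.1 ≤ E) &&
      hmL (E - (2 * (M - t.2.2.1) + t.2.2.2.1)) t.2.2.2.2 && hmT M E T

theorem gr_hom {h : ℕ} {p s c l : ℝ} : ∀ {L : List (ℤ × ℕ × ℕ × ℕ)}, hmL h L = true →
    gr (l * p) (l ^ 2 * s) (l * c) L = l ^ h * gr p s c L
  | [], _ => by simp [gr]
  | ν :: L, hh => by
    simp only [hmL, Bool.and_eq_true, decide_eq_true_eq] at hh
    simp only [gr]
    rw [gr_hom hh.2, ← hh.1, mul_pow, mul_pow, mul_pow, pow_add, pow_add, pow_mul]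
    ring

theorem rtot_hom {M E : ℕ} {A B C l : ℝ} : ∀ {Ds : List Dt}, hmT M E Ds = true →
    rtot M (l * A) (l * B) (l * C) Ds = l ^ E * rtot M A B C Ds
  | [], _ => by simp [rtot]
  | t :: T, hh => by
    simp only [hmT, Bool.and_eq_true, decide_eq_true_eq] at hh
    obtain ⟨⟨h1, h2⟩, h3⟩ := hh
    simp only [rtot]
    have e1 : l * A + l * B - l * C = l * (A + B - C) := by ring
    have e2 : (l * A + l * C - l * B) * (l * B + l * C - l * A) =
        l ^ 2 * ((A + C - B) * (B + C - A)) := by ring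
    have e3 : l ^ E = l ^ (E - (2 * (M - t.2.2.1) + t.2.2.2.1)) * (l ^ (M - t.2.2.1) *
        l ^ (M - t.2.2.1) * l ^ t.2.2.2.1) := by
      rw [← pow_add, ← pow_add, ← pow_add]
      congr 1
      omega
    rw [e1, e2, gr_hom h2, rtot_hom h3, mul_pow, mul_pow, mul_pow]
    rw [mul_add]
    congr 1
    rw [e3]
    ring

def vA : List (List ℤ) := [[0, 1]]
def vB : List (List ℤ) := [[], [1]]
def vC : List (List ℤ) := [[1]]

/-- minus twice the right side -/
def rt (M r : ℕ) (K : ℤ) (A B C : List (List ℤ)) : List (List ℤ) :=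
  mmu [[-K]] (mmu (mad A (mad B (mmu [[-1]] C))) (mmu (mpw A r) (mmu (mpw B r) (mpw C M))))

/-- the check of the identity -/
def chk (M r : ℕ) (K : ℤ) (T : List Dt) : Bool :=
  mzr (mad (mad (mad (tot M vA vB vC T) (tot M vA vC vB T)) (tot M vC vB vA T))
    (mad (mad (rt M r K vA vB vC) (rt M r K vA vC vB)) (rt M r K vC vB vA)))

theorem chk_ev {M r : ℕ} {K : ℤ} {T : List Dt} (h : chk M r K T = true) (x y : ℝ) :
    rtot M x y 1 T + rtot M x 1 y T + rtot M 1 y x T =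
      K * ((x + y - 1) * (x ^ r * (y ^ r * 1 ^ M)) + (x + 1 - y) * (x ^ r * (1 ^ r * y ^ M)) +
        (1 + y - x) * (1 ^ r * (y ^ r * x ^ M))) := by
  have h1 := mev_zero x y _ h
  have e : ∀ P Q R : List (List ℤ), mev x y (mad P (mad Q (mmu [[-1]] R))) =
      mev x y P + mev x y Q - mev x y R := by
    intro P Q R
    rw [mev_mad, mev_mad, mev_mmu]
    simp [mev, lev]
    ring
  have hA : mev x y vA = x := by simp [vA, mev, lev]
  have hB : mev x y vB = y := by simp [vB, mev, lev]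
  have hC : mev x y vC = 1 := by simp [vC, mev, lev]
  have er : ∀ P Q R : List (List ℤ), mev x y (rt M r K P Q R) =
      -K * ((mev x y P + mev x y Q - mev x y R) * (mev x y P ^ r * (mev x y Q ^ r *
        mev x y R ^ M))) := by
    intro P Q R
    unfold rt
    rw [mev_mmu, mev_mmu, mev_mmu, mev_mmu, mev_mpw, mev_mpw, mev_mpw, e]
    simp [mev, lev]
  rw [mev_mad, mev_mad, mev_mad, mev_mad, mev_mad, mev_tot, mev_tot, mev_tot, er, er, er,
    hA, hB, hC] at h1
  linear_combination h1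

/-- the identity from the checks -/
theorem ident_data {M N r E : ℕ} (hM : N + 1 ≤ 2 * M) (hN : Even (N + 1)) {T : List At}
    (h : ∀ t ∈ T, Fit M t) {K : ℤ} (hK : K ≠ 0) {Ds : List Dt} (h1 : okT M (2 * K) T Ds = true)
    (h2 : hmT M E Ds = true) (hr : r = M - (N + 1) / 2) (hE : E = 2 * r + M + 1)
    (h3 : chk M r K Ds = true) {a b : X d} (ha : a ≠ 0) (hb : b ≠ 0) (hab : a ≠ b) :
    WN T a b + WN T (-a) (b - a) + WN T (a - b) (-b) =
      LN N a b + LN N (-a) (b - a) + LN N (a - b) (-b) := by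
  refine ident_of hM hN h ?_ ha hb hab
  intro A B C hC
  have g := chk_ev h3 (A / C) (B / C)
  have k1 := rtot_hom (A := A / C) (B := B / C) (C := 1) (l := C) h2
  have k2 := rtot_hom (A := A / C) (B := 1) (C := B / C) (l := C) h2
  have k3 := rtot_hom (A := 1) (B := B / C) (C := A / C) (l := C) h2
  rw [mul_div_cancel₀ A hC, mul_div_cancel₀ B hC, mul_one, okT_rtot h1] at k1 k2 k3
  have hK' : ((2 * K : ℤ) : ℝ) ≠ 0 := by
    have : (2 * K : ℤ) ≠ 0 := mul_ne_zero two_ne_zero hK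
    exact_mod_cast this
  apply mul_left_cancel₀ hK'
  rw [mul_add, mul_add, k1, k2, k3, ← mul_add, ← mul_add, g, ← hr]
  have eA : A = C * (A / C) := (mul_div_cancel₀ A hC).symm
  have eB : B = C * (B / C) := (mul_div_cancel₀ B hC).symm
  generalize A / C = x at *
  generalize B / C = y at *
  rw [eA, eB, hE]
  push_cast
  rw [mul_pow, mul_pow, mul_pow, mul_pow, one_pow, one_pow]
  ring

end Pool.Agent.H48.RE
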