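import Pool.Agent.H48.RE.Defs

/-!
gauss_ten: exp (-(σ/2) Δ) |y|^10 in closed form, σ = κ²/(2b).
-/

set_option autoImplicit false

open MeasureTheory Filter Topology Metric Set
open scoped RealInnerProductSpace ENNReal

namespace Pool.Agent.H48.RE

open Pool.Agent.RZ Pool.Agent.H1.LD Pool.Agent.H48.R7

variable {d : ℕ}

/-- continuous functions of polynomial growth -/
private def Ten_pg (F : X d → ℝ) : Prop :=
  Continuous F ∧ ∃ (m : ℕ) (C : ℝ), 0 ≤ C ∧ ∀ w, |F w| ≤ C * (1 + ‖w‖) ^ m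

private theorem Ten_mul {F G : X d → ℝ} (hF : Ten_pg F) (hG : Ten_pg G) :
    Ten_pg (fun w => F w * G w) := by
  obtain ⟨h1, m, C, hC, h2⟩ := hF
  obtain ⟨h3, m', C', hC', h4⟩ := hG
  refine ⟨h1.mul h3, m + m', C * C', mul_nonneg hC hC', fun w => ?_⟩
  rw [abs_mul]
  calc |F w| * |G w| ≤ (C * (1 + ‖w‖) ^ m) * (C' * (1 + ‖w‖) ^ m') :=
        mul_le_mul (h2 w) (h4 w) (abs_nonneg _) (by positivity)
    _ = C * C' * (1 + ‖w‖) ^ (m + m') := by ring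

private theorem Ten_add {F G : X d → ℝ} (hF : Ten_pg F) (hG : Ten_pg G) :
    Ten_pg (fun w => F w + G w) := by
  obtain ⟨h1, m, C, hC, h2⟩ := hF
  obtain ⟨h3, m', C', hC', h4⟩ := hG
  refine ⟨h1.add h3, m + m', C + C', add_nonneg hC hC', fun w => ?_⟩
  have h0 : 1 ≤ 1 + ‖w‖ := by linarith [norm_nonneg w]
  have h5 : (1 + ‖w‖) ^ m ≤ (1 + ‖w‖) ^ (m + m') := pow_le_pow_right₀ h0 (by omega)
  have h6 : (1 + ‖w‖) ^ m' ≤ (1 + ‖w‖) ^ (m + m') := pow_le_pow_right₀ h0 (by omega)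
  calc |F w + G w| ≤ |F w| + |G w| := abs_add_le _ _
    _ ≤ C * (1 + ‖w‖) ^ m + C' * (1 + ‖w‖) ^ m' := add_le_add (h2 w) (h4 w)
    _ ≤ C * (1 + ‖w‖) ^ (m + m') + C' * (1 + ‖w‖) ^ (m + m') :=
        add_le_add (mul_le_mul_of_nonneg_left h5 hC) (mul_le_mul_of_nonneg_left h6 hC')
    _ = (C + C') * (1 + ‖w‖) ^ (m + m') := by ring

private theorem Ten_const (c : ℝ) : Ten_pg (fun _ : X d => c) := by
  refine ⟨continuous_const, 0, |c|, abs_nonneg c, fun w => ?_⟩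
  simp

private theorem Ten_pow {F : X d → ℝ} (hF : Ten_pg F) (k : ℕ) : Ten_pg (fun w => F w ^ k) := by
  induction k with
  | zero => simpa using Ten_const (d := d) 1
  | succ k ih => simpa only [pow_succ] using Ten_mul ih hF

private theorem Ten_in (a : X d) : Ten_pg (fun w => ⟪w, a⟫) := by
  refine ⟨by fun_prop, 1, ‖a‖, norm_nonneg a, fun w => ?_⟩
  have h1 := abs_real_inner_le_norm w a
  have h2 := norm_nonneg a
  rw [pow_one]
  nlinarith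

private theorem Ten_nb (κ : ℝ) (v w : X d) : ‖v + κ • w‖ ≤ (‖v‖ + |κ|) * (1 + ‖w‖) := by
  have h1 : ‖v + κ • w‖ ≤ ‖v‖ + |κ| * ‖w‖ := by
    refine (norm_add_le _ _).trans ?_
    rw [norm_smul, Real.norm_eq_abs]
  have h2 := mul_nonneg (norm_nonneg v) (norm_nonneg w)
  have h3 := abs_nonneg κ
  nlinarith

private theorem Ten_yin (κ : ℝ) (v a : X d) : Ten_pg (fun w => ⟪v + κ • w, a⟫) := by
  refine ⟨by fun_prop, 1, (‖v‖ + |κ|) * ‖a‖, by positivity, fun w => ?_⟩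
  refine (abs_real_inner_le_norm _ _).trans ?_
  calc ‖v + κ • w‖ * ‖a‖ ≤ ((‖v‖ + |κ|) * (1 + ‖w‖)) * ‖a‖ :=
        mul_le_mul_of_nonneg_right (Ten_nb κ v w) (norm_nonneg a)
    _ = (‖v‖ + |κ|) * ‖a‖ * (1 + ‖w‖) ^ 1 := by ring

private theorem Ten_yn (κ : ℝ) (v : X d) : Ten_pg (fun w => ‖v + κ • w‖ ^ 2) := by
  refine ⟨by fun_prop, 2, (‖v‖ + |κ|) ^ 2, by positivity, fun w => ?_⟩
  rw [abs_of_nonneg (by positivity), ← mul_pow]
  exact pow_le_pow_left₀ (norm_nonneg _) (Ten_nb κ v w) 2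

private theorem Ten_int {b : ℝ} (hb : 0 < b) {F : X d → ℝ} (hF : Ten_pg F) :
    Integrable (fun w : X d => ga b w * F w) := by
  obtain ⟨h1, m, C, hC, h2⟩ := hF
  refine ((ga_integrable hb m).const_mul C).mono'
    ((ga_continuous b).mul h1).aestronglyMeasurable (Eventually.of_forall fun w => ?_)
  rw [Real.norm_eq_abs, abs_mul, abs_of_nonneg (ga_nonneg b w)]
  calc ga b w * |F w| ≤ ga b w * (C * (1 + ‖w‖) ^ m) :=
        mul_le_mul_of_nonneg_left (h2 w) (ga_nonneg b w)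
    _ = C * ((1 + ‖w‖) ^ m * ga b w) := by ring

private theorem Ten_deriv (b : ℝ) (w a : X d) :
    HasLineDerivAt ℝ (ga b : X d → ℝ) (ga b w * (-(2 * b) * ⟪w, a⟫)) w a := by
  unfold HasLineDerivAt
  have h1 : HasDerivAt (fun t : ℝ => w + t • a) a 0 := by
    have h2 := ((hasDerivAt_id (0 : ℝ)).smul_const a).const_add w
    simpa using h2
  have h2 : HasDerivAt (fun t : ℝ => ‖w + t • a‖ ^ 2) (2 * ⟪w + (0 : ℝ) • a, a⟫) 0 := h1.norm_sq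
  have h3 : HasDerivAt (fun t : ℝ => -(b * ‖w + t • a‖ ^ 2))
      (-(b * (2 * ⟪w + (0 : ℝ) • a, a⟫))) 0 := (h2.const_mul b).neg
  have h4 := h3.exp
  have e : ga b w * (-(2 * b) * ⟪w, a⟫) = Real.exp (-(b * ‖w + (0 : ℝ) • a‖ ^ 2)) *
      -(b * (2 * ⟪w + (0 : ℝ) • a, a⟫)) := by
    rw [zero_smul, add_zero]
    unfold ga
    ring
  rw [e]
  exact h4

/-- integration by parts -/
private theorem Ten_stein {b : ℝ} (hb : 0 < b) {f f' : X d → ℝ} (a : X d) (hf : Ten_pg f)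
    (hf' : Ten_pg f') (h : ∀ w, HasLineDerivAt ℝ f (f' w) w a) :
    ∫ w : X d, ga b w * f' w = 2 * b * ∫ w : X d, ga b w * (⟪w, a⟫ * f w) := by
  have h := integral_bilinear_hasLineDerivAt_right_eq_neg_left_of_integrable
    (μ := (volume : Measure (X d))) (f := fun w : X d => ga b w)
    (f' := fun w => ga b w * (-(2 * b) * ⟪w, a⟫)) (g := f)
    (g' := f') (v := a) (B := ContinuousLinearMap.mul ℝ ℝ) ?_ ?_ ?_ ?_ ?_
  · simp only [ContinuousLinearMap.mul_apply'] at h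
    rw [h, ← integral_const_mul, ← integral_neg]
    refine integral_congr_ae (Eventually.of_forall fun w => ?_)
    simp only
    ring
  · simp only [ContinuousLinearMap.mul_apply']
    have h1 := (Ten_int hb (Ten_mul (Ten_in a) hf)).const_mul (-(2 * b))
    refine h1.congr (Eventually.of_forall fun w => ?_)
    simp only
    ring
  · simp only [ContinuousLinearMap.mul_apply']
    exact Ten_int hb hf'
  · simp only [ContinuousLinearMap.mul_apply']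
    exact Ten_int hb hf
  · intro w _
    exact Ten_deriv b w a
  · intro w _
    exact h w

private theorem Ten_d1 (κ : ℝ) (v w a c : X d) :
    HasDerivAt (fun t : ℝ => ⟪v + κ • (w + t • a), c⟫) (κ * ⟪a, c⟫) 0 := by
  have h2 := ((hasDerivAt_id (0 : ℝ)).mul_const (κ * ⟪a, c⟫)).const_add ⟪v + κ • w, c⟫
  rw [one_mul] at h2
  refine h2.congr_of_eventuallyEq (Eventually.of_forall fun t => ?_)
  simp only [id]
  rw [smul_add, ← add_assoc, inner_add_left, real_inner_smul_left, real_inner_smul_left]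
  ring

private theorem Ten_d2 (κ : ℝ) (v w a : X d) :
    HasDerivAt (fun t : ℝ => ‖v + κ • (w + t • a)‖ ^ 2) (2 * (κ * ⟪v + κ • w, a⟫)) 0 := by
  have h1 : HasDerivAt (fun t : ℝ => v + κ • (w + t • a)) (κ • a) 0 := by
    have h2 := ((((hasDerivAt_id (0 : ℝ)).smul_const a).const_add w).const_smul κ).const_add v
    simpa using h2
  have h2 := h1.norm_sq
  rw [zero_smul, add_zero, real_inner_smul_right] at h2
  exact h2

/-- the derivative of `‖y‖^(2k)` -/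
private theorem Ten_dn (κ : ℝ) (v w a : X d) (k : ℕ) :
    HasLineDerivAt ℝ (fun w : X d => (‖v + κ • w‖ ^ 2) ^ k)
      (2 * k * κ * ((‖v + κ • w‖ ^ 2) ^ (k - 1) * ⟪v + κ • w, a⟫)) w a := by
  unfold HasLineDerivAt
  have h := (Ten_d2 κ v w a).fun_pow k
  have e : 2 * (k : ℝ) * κ * ((‖v + κ • w‖ ^ 2) ^ (k - 1) * ⟪v + κ • w, a⟫) =
      (k : ℝ) * (‖v + κ • (w + (0 : ℝ) • a)‖ ^ 2) ^ (k - 1) *
        (2 * (κ * ⟪v + κ • w, a⟫)) := by
    rw [zero_smul, add_zero]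
    ring
  rw [e]
  exact h

/-- the derivative of `‖y‖^(2k) ⟪y, c⟫` -/
private theorem Ten_dv (κ : ℝ) (v w a c : X d) (k : ℕ) :
    HasLineDerivAt ℝ (fun w : X d => (‖v + κ • w‖ ^ 2) ^ k * ⟪v + κ • w, c⟫)
      (2 * k * κ * ((‖v + κ • w‖ ^ 2) ^ (k - 1) * (⟪v + κ • w, a⟫ * ⟪v + κ • w, c⟫)) +
        κ * ⟪a, c⟫ * (‖v + κ • w‖ ^ 2) ^ k) w a := by
  have h1 := Ten_dn κ v w a k
  unfold HasLineDerivAt at h1 ⊢
  have h := h1.fun_mul (Ten_d1 κ v w a c)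
  have e : 2 * (k : ℝ) * κ * ((‖v + κ • w‖ ^ 2) ^ (k - 1) *
        (⟪v + κ • w, a⟫ * ⟪v + κ • w, c⟫)) + κ * ⟪a, c⟫ * (‖v + κ • w‖ ^ 2) ^ k =
      2 * (k : ℝ) * κ * ((‖v + κ • w‖ ^ 2) ^ (k - 1) * ⟪v + κ • w, a⟫) *
        ⟪v + κ • (w + (0 : ℝ) • a), c⟫ +
      (fun w : X d => (‖v + κ • w‖ ^ 2) ^ k) (w + (0 : ℝ) • a) * (κ * ⟪a, c⟫) := by
    simp only [zero_smul, add_zero]
    ring
  rw [e]
  exact h

private noncomputable def Ten_Mo (b κ : ℝ) (v : X d) (k : ℕ) : ℝ :=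
  ∫ w : X d, ga b w * (‖v + κ • w‖ ^ 2) ^ k

private noncomputable def Ten_Vo (b κ : ℝ) (v : X d) (k : ℕ) : ℝ :=
  ∫ w : X d, ga b w * ((‖v + κ • w‖ ^ 2) ^ k * ⟪v + κ • w, v⟫)

private theorem Ten_M0 (b κ : ℝ) (v : X d) : Ten_Mo b κ v 0 = gc d b := by
  unfold Ten_Mo gc
  simp

private theorem Ten_V0 {b : ℝ} (hb : 0 < b) (κ : ℝ) (v : X d) :
    Ten_Vo b κ v 0 = ‖v‖ ^ 2 * gc d b := by
  unfold Ten_Vo gc
  have h1 : ∀ w : X d, ga b w * ((‖v + κ • w‖ ^ 2) ^ 0 * ⟪v + κ • w, v⟫) =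
      ‖v‖ ^ 2 * ga b w + κ * (ga b w * ⟪w, v⟫) := by
    intro w
    rw [pow_zero, inner_add_left, real_inner_smul_left, real_inner_self_eq_norm_sq]
    ring
  have i1 : Integrable (fun w : X d => ‖v‖ ^ 2 * ga b w) := by
    have := (Ten_int hb (Ten_const (d := d) 1)).const_mul (‖v‖ ^ 2)
    simpa using this
  have i2 : Integrable (fun w : X d => κ * (ga b w * ⟪w, v⟫)) :=
    (Ten_int hb (Ten_in v)).const_mul κ
  rw [integral_congr_ae (Eventually.of_forall h1), integral_add i1 i2, integral_const_mul,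
    integral_const_mul, ga_odd]
  ring

private theorem Ten_Vs {b : ℝ} (hb : 0 < b) (κ : ℝ) (v : X d) (k : ℕ) :
    Ten_Vo b κ v (k + 1) = ‖v‖ ^ 2 * Ten_Mo b κ v (k + 1) +
      2 * (k + 1) * (κ ^ 2 / (2 * b)) * Ten_Vo b κ v k := by
  have h := Ten_stein hb v (Ten_pow (Ten_yn κ v) (k + 1))
    (Ten_mul (Ten_const (2 * ((k + 1 : ℕ) : ℝ) * κ))
      (Ten_mul (Ten_pow (Ten_yn κ v) (k + 1 - 1)) (Ten_yin κ v v)))
    (fun w => Ten_dn κ v w v (k + 1))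
  have h1 : ∫ w : X d, ga b w * (2 * ((k + 1 : ℕ) : ℝ) * κ *
      ((‖v + κ • w‖ ^ 2) ^ (k + 1 - 1) * ⟪v + κ • w, v⟫)) =
      2 * (k + 1) * κ * Ten_Vo b κ v k := by
    unfold Ten_Vo
    rw [← integral_const_mul]
    refine integral_congr_ae (Eventually.of_forall fun w => ?_)
    simp only [Nat.add_sub_cancel]
    push_cast
    ring
  rw [h1] at h
  have h2 : κ * ∫ w : X d, ga b w * (⟪w, v⟫ * (‖v + κ • w‖ ^ 2) ^ (k + 1)) =
      Ten_Vo b κ v (k + 1) - ‖v‖ ^ 2 * Ten_Mo b κ v (k + 1) := by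
    unfold Ten_Vo Ten_Mo
    rw [← integral_const_mul, ← integral_const_mul, ← integral_sub]
    · refine integral_congr_ae (Eventually.of_forall fun w => ?_)
      simp only
      rw [inner_add_left, real_inner_smul_left, real_inner_self_eq_norm_sq]
      ring
    · exact Ten_int hb (Ten_mul (Ten_pow (Ten_yn κ v) (k + 1)) (Ten_yin κ v v))
    · exact (Ten_int hb (Ten_pow (Ten_yn κ v) (k + 1))).const_mul _
  have h3 : κ * (2 * (k + 1) * κ * Ten_Vo b κ v k) =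
      2 * b * (Ten_Vo b κ v (k + 1) - ‖v‖ ^ 2 * Ten_Mo b κ v (k + 1)) := by
    rw [h, ← h2]
    ring
  field_simp
  linarith

private theorem Ten_Ms {b : ℝ} (hb : 0 < b) (κ : ℝ) (v : X d) (k : ℕ) :
    Ten_Mo b κ v (k + 1) = Ten_Vo b κ v k +
      (κ ^ 2 / (2 * b)) * (2 * k + d) * Ten_Mo b κ v k := by
  have pf : ∀ i : Fin d, Ten_pg (fun w : X d => (‖v + κ • w‖ ^ 2) ^ k *
      ⟪v + κ • w, EuclideanSpace.basisFun (Fin d) ℝ i⟫) :=
    fun i => Ten_mul (Ten_pow (Ten_yn κ v) k) (Ten_yin κ v _)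
  have pg : ∀ i : Fin d, Ten_pg (fun w : X d => 2 * (k : ℝ) * κ *
      ((‖v + κ • w‖ ^ 2) ^ (k - 1) * (⟪v + κ • w, EuclideanSpace.basisFun (Fin d) ℝ i⟫ *
        ⟪v + κ • w, EuclideanSpace.basisFun (Fin d) ℝ i⟫)) +
      κ * ⟪EuclideanSpace.basisFun (Fin d) ℝ i, EuclideanSpace.basisFun (Fin d) ℝ i⟫ *
        (‖v + κ • w‖ ^ 2) ^ k) :=
    fun i => Ten_add (Ten_mul (Ten_const _) (Ten_mul (Ten_pow (Ten_yn κ v) (k - 1))
      (Ten_mul (Ten_yin κ v _) (Ten_yin κ v _)))) (Ten_mul (Ten_const _) (Ten_pow (Ten_yn κ v) k))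
  have h := fun i : Fin d => Ten_stein hb (EuclideanSpace.basisFun (Fin d) ℝ i) (pf i)
    (pg i) (fun w => Ten_dv κ v w (EuclideanSpace.basisFun (Fin d) ℝ i)
      (EuclideanSpace.basisFun (Fin d) ℝ i) k)
  have hs := Finset.sum_congr (rfl : (Finset.univ : Finset (Fin d)) = Finset.univ)
    (fun i _ => h i)
  rw [← integral_finsetSum _ (fun i _ => Ten_int hb (pg i)), ← Finset.mul_sum,
    ← integral_finsetSum _ (fun i _ => Ten_int hb (Ten_mul (Ten_in _) (pf i)))] at hs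
  have hk : ∀ x : ℝ, (k : ℝ) * (x ^ (k - 1) * x) = k * x ^ k := by
    intro x
    cases k with
    | zero => simp
    | succ k => rw [Nat.add_sub_cancel, pow_succ]
  have h1 : ∫ w : X d, ∑ i : Fin d, ga b w * (2 * (k : ℝ) * κ *
      ((‖v + κ • w‖ ^ 2) ^ (k - 1) * (⟪v + κ • w, EuclideanSpace.basisFun (Fin d) ℝ i⟫ *
        ⟪v + κ • w, EuclideanSpace.basisFun (Fin d) ℝ i⟫)) +
      κ * ⟪EuclideanSpace.basisFun (Fin d) ℝ i, EuclideanSpace.basisFun (Fin d) ℝ i⟫ *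
        (‖v + κ • w‖ ^ 2) ^ k) = κ * (2 * k + d) * Ten_Mo b κ v k := by
    unfold Ten_Mo
    rw [← integral_const_mul]
    refine integral_congr_ae (Eventually.of_forall fun w => ?_)
    simp only
    have e1 : ∑ i : Fin d, ⟪v + κ • w, EuclideanSpace.basisFun (Fin d) ℝ i⟫ *
        ⟪v + κ • w, EuclideanSpace.basisFun (Fin d) ℝ i⟫ = ‖v + κ • w‖ ^ 2 := by
      rw [← (EuclideanSpace.basisFun (Fin d) ℝ).sum_sq_norm_inner_left (v + κ • w)]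
      refine Finset.sum_congr rfl fun i _ => ?_
      rw [Real.norm_eq_abs, sq_abs, sq]
    have e2 : ∑ i : Fin d, ⟪EuclideanSpace.basisFun (Fin d) ℝ i,
        EuclideanSpace.basisFun (Fin d) ℝ i⟫ = (d : ℝ) := by
      rw [Finset.sum_congr rfl (fun i _ => show ⟪EuclideanSpace.basisFun (Fin d) ℝ i,
        EuclideanSpace.basisFun (Fin d) ℝ i⟫ = (1 : ℝ) by
          rw [real_inner_self_eq_norm_sq, (EuclideanSpace.basisFun (Fin d) ℝ).norm_eq_one i,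
            one_pow])]
      simp
    rw [← Finset.mul_sum, Finset.sum_add_distrib, ← Finset.mul_sum, ← Finset.mul_sum, e1,
      ← Finset.sum_mul, ← Finset.mul_sum, e2]
    have := hk (‖v + κ • w‖ ^ 2)
    linear_combination ga b w * (2 * κ) * this
  have h2 : κ * ∫ w : X d, ∑ i : Fin d, ga b w * (⟪w, EuclideanSpace.basisFun (Fin d) ℝ i⟫ *
      ((‖v + κ • w‖ ^ 2) ^ k * ⟪v + κ • w, EuclideanSpace.basisFun (Fin d) ℝ i⟫)) =
      Ten_Mo b κ v (k + 1) - Ten_Vo b κ v k := by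
    unfold Ten_Vo Ten_Mo
    rw [← integral_const_mul, ← integral_sub]
    · refine integral_congr_ae (Eventually.of_forall fun w => ?_)
      simp only
      have e1 : ∑ i : Fin d, ⟪w, EuclideanSpace.basisFun (Fin d) ℝ i⟫ *
          ⟪v + κ • w, EuclideanSpace.basisFun (Fin d) ℝ i⟫ = ⟪w, v + κ • w⟫ := by
        rw [← (EuclideanSpace.basisFun (Fin d) ℝ).sum_inner_mul_inner w (v + κ • w)]
        refine Finset.sum_congr rfl fun i _ => ?_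
        rw [real_inner_comm (v + κ • w)]
      have e3 : ∑ i : Fin d, ga b w * (⟪w, EuclideanSpace.basisFun (Fin d) ℝ i⟫ *
          ((‖v + κ • w‖ ^ 2) ^ k * ⟪v + κ • w, EuclideanSpace.basisFun (Fin d) ℝ i⟫)) =
          ga b w * (‖v + κ • w‖ ^ 2) ^ k * ⟪w, v + κ • w⟫ := by
        rw [← e1, Finset.mul_sum]
        exact Finset.sum_congr rfl fun i _ => by ring
      have e4 : κ * ⟪w, v + κ • w⟫ = ‖v + κ • w‖ ^ 2 - ⟪v + κ • w, v⟫ := by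
        rw [← real_inner_self_eq_norm_sq (v + κ • w), real_inner_comm v (v + κ • w),
          ← inner_sub_left, ← real_inner_smul_left, add_sub_cancel_left]
      rw [e3]
      linear_combination ga b w * (‖v + κ • w‖ ^ 2) ^ k * e4
    · exact Ten_int hb (Ten_pow (Ten_yn κ v) (k + 1))
    · exact Ten_int hb (Ten_mul (Ten_pow (Ten_yn κ v) k) (Ten_yin κ v v))
  rw [h1] at hs
  have h3 : κ * (κ * (2 * k + d) * Ten_Mo b κ v k) =
      2 * b * (Ten_Mo b κ v (k + 1) - Ten_Vo b κ v k) := by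
    rw [hs, ← h2]
    ring
  field_simp
  linarith

theorem gauss_ten {b κ : ℝ} (hb : 0 < b) (hκ : 0 < κ) (v : X d) :
    ∫ w : X d, ga b w * (‖v + κ • w‖ ^ 10 - 5 * (d + 8) * (κ ^ 2 / (2 * b)) * ‖v + κ • w‖ ^ 8 +
      10 * (d + 6) * (d + 8) * (κ ^ 2 / (2 * b)) ^ 2 * ‖v + κ • w‖ ^ 6 -
      10 * (d + 4) * (d + 6) * (d + 8) * (κ ^ 2 / (2 * b)) ^ 3 * ‖v + κ • w‖ ^ 4 +
      5 * (d + 2) * (d + 4) * (d + 6) * (d + 8) * (κ ^ 2 / (2 * b)) ^ 4 * ‖v + κ • w‖ ^ 2 -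
      d * (d + 2) * (d + 4) * (d + 6) * (d + 8) * (κ ^ 2 / (2 * b)) ^ 5) = gc d b * ‖v‖ ^ 10 := by
  have i0 := (Ten_int (d := d) hb (Ten_pow (Ten_yn κ v) 0))
  have i1 := (Ten_int (d := d) hb (Ten_pow (Ten_yn κ v) 1))
  have i2 := (Ten_int (d := d) hb (Ten_pow (Ten_yn κ v) 2))
  have i3 := (Ten_int (d := d) hb (Ten_pow (Ten_yn κ v) 3))
  have i4 := (Ten_int (d := d) hb (Ten_pow (Ten_yn κ v) 4))
  have i5 := (Ten_int (d := d) hb (Ten_pow (Ten_yn κ v) 5))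
  have h1 : ∀ w : X d, ga b w * (‖v + κ • w‖ ^ 10 - 5 * (d + 8) * (κ ^ 2 / (2 * b)) * ‖v + κ • w‖ ^ 8 +
      10 * (d + 6) * (d + 8) * (κ ^ 2 / (2 * b)) ^ 2 * ‖v + κ • w‖ ^ 6 -
      10 * (d + 4) * (d + 6) * (d + 8) * (κ ^ 2 / (2 * b)) ^ 3 * ‖v + κ • w‖ ^ 4 +
      5 * (d + 2) * (d + 4) * (d + 6) * (d + 8) * (κ ^ 2 / (2 * b)) ^ 4 * ‖v + κ • w‖ ^ 2 -
      d * (d + 2) * (d + 4) * (d + 6) * (d + 8) * (κ ^ 2 / (2 * b)) ^ 5) =
      ((((ga b w * (‖v + κ • w‖ ^ 2) ^ 5 - 5 * (d + 8) * (κ ^ 2 / (2 * b)) * (ga b w * (‖v + κ • w‖ ^ 2) ^ 4)) +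
      10 * (d + 6) * (d + 8) * (κ ^ 2 / (2 * b)) ^ 2 * (ga b w * (‖v + κ • w‖ ^ 2) ^ 3)) -
      10 * (d + 4) * (d + 6) * (d + 8) * (κ ^ 2 / (2 * b)) ^ 3 * (ga b w * (‖v + κ • w‖ ^ 2) ^ 2)) +
      5 * (d + 2) * (d + 4) * (d + 6) * (d + 8) * (κ ^ 2 / (2 * b)) ^ 4 * (ga b w * (‖v + κ • w‖ ^ 2) ^ 1)) -
      d * (d + 2) * (d + 4) * (d + 6) * (d + 8) * (κ ^ 2 / (2 * b)) ^ 5 * (ga b w * (‖v + κ • w‖ ^ 2) ^ 0) := by
    intro w
    ring
  have j4 := i4.const_mul (5 * (d + 8) * (κ ^ 2 / (2 * b)))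
  have j3 := i3.const_mul (10 * (d + 6) * (d + 8) * (κ ^ 2 / (2 * b)) ^ 2)
  have j2 := i2.const_mul (10 * (d + 4) * (d + 6) * (d + 8) * (κ ^ 2 / (2 * b)) ^ 3)
  have j1 := i1.const_mul (5 * (d + 2) * (d + 4) * (d + 6) * (d + 8) * (κ ^ 2 / (2 * b)) ^ 4)
  have j0 := i0.const_mul (d * (d + 2) * (d + 4) * (d + 6) * (d + 8) * (κ ^ 2 / (2 * b)) ^ 5)
  have k1 : Integrable (fun w : X d => ga b w * (‖v + κ • w‖ ^ 2) ^ 5 - 5 * (d + 8) * (κ ^ 2 / (2 * b)) * (ga b w * (‖v + κ • w‖ ^ 2) ^ 4)) := i5.sub j4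
  have k2 : Integrable (fun w : X d => (ga b w * (‖v + κ • w‖ ^ 2) ^ 5 - 5 * (d + 8) * (κ ^ 2 / (2 * b)) * (ga b w * (‖v + κ • w‖ ^ 2) ^ 4)) +
      10 * (d + 6) * (d + 8) * (κ ^ 2 / (2 * b)) ^ 2 * (ga b w * (‖v + κ • w‖ ^ 2) ^ 3)) := k1.add j3
  have k3 : Integrable (fun w : X d => ((ga b w * (‖v + κ • w‖ ^ 2) ^ 5 - 5 * (d + 8) * (κ ^ 2 / (2 * b)) * (ga b w * (‖v + κ • w‖ ^ 2) ^ 4)) +
      10 * (d + 6) * (d + 8) * (κ ^ 2 / (2 * b)) ^ 2 * (ga b w * (‖v + κ • w‖ ^ 2) ^ 3)) -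
      10 * (d + 4) * (d + 6) * (d + 8) * (κ ^ 2 / (2 * b)) ^ 3 * (ga b w * (‖v + κ • w‖ ^ 2) ^ 2)) := k2.sub j2
  have k4 : Integrable (fun w : X d => (((ga b w * (‖v + κ • w‖ ^ 2) ^ 5 - 5 * (d + 8) * (κ ^ 2 / (2 * b)) * (ga b w * (‖v + κ • w‖ ^ 2) ^ 4)) +
      10 * (d + 6) * (d + 8) * (κ ^ 2 / (2 * b)) ^ 2 * (ga b w * (‖v + κ • w‖ ^ 2) ^ 3)) -
      10 * (d + 4) * (d + 6) * (d + 8) * (κ ^ 2 / (2 * b)) ^ 3 * (ga b w * (‖v + κ • w‖ ^ 2) ^ 2)) +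
      5 * (d + 2) * (d + 4) * (d + 6) * (d + 8) * (κ ^ 2 / (2 * b)) ^ 4 * (ga b w * (‖v + κ • w‖ ^ 2) ^ 1)) := k3.add j1
  rw [integral_congr_ae (Eventually.of_forall h1), integral_sub k4 j0, integral_add k3 j1,
    integral_sub k2 j2, integral_add k1 j3, integral_sub i5 j4, integral_const_mul,
    integral_const_mul, integral_const_mul, integral_const_mul, integral_const_mul]
  have m0 := Ten_M0 b κ v
  have v0 := Ten_V0 hb κ v
  have m1 := Ten_Ms hb κ v 0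
  have v1 := Ten_Vs hb κ v 0
  have m2 := Ten_Ms hb κ v 1
  have v2 := Ten_Vs hb κ v 1
  have m3 := Ten_Ms hb κ v 2
  have v3 := Ten_Vs hb κ v 2
  have m4 := Ten_Ms hb κ v 3
  have v4 := Ten_Vs hb κ v 3
  have m5 := Ten_Ms hb κ v 4
  unfold Ten_Mo at m0 m1 m2 m3 m4 m5 v1 v2 v3 v4
  rw [m5]
  generalize (κ ^ 2 / (2 * b)) = σ at *
  push_cast at *
  simp only [zero_add] at *
  rw [v4, m4, v3, m3, v2, m2, v1, m1, v0, m0]
  ring

end Pool.Agent.H48.RE
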