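import Pool.Agent.H48.RE.QjD
import Pool.Agent.H48.RE.Ten

/-!
jo_mom: the moment identity of the test function.
-/

set_option autoImplicit false

open MeasureTheory Filter Topology Metric Set
open scoped RealInnerProductSpace ENNReal

namespace Pool.Agent.H48.RE

open Pool.Agent.RZ Pool.Agent.H1.LD Pool.Agent.H48.R7

variable {d : ℕ}

private theorem REQjA_b_ge {β : ℝ} (h : 8 ≤ β) : 4 ≤ jb β := by
  unfold jb
  rw [le_div_iff₀ (by linarith)]
  linarith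

private theorem REQjA_b_eq {β : ℝ} (h : 8 ≤ β) : β * jb β / (β + jb β) = 4 := by
  have h1 : jb β * (β - 4) = 4 * β := by
    unfold jb
    rw [div_mul_cancel₀]
    linarith
  have h2 := REQjA_b_ge h
  rw [div_eq_iff (by linarith)]
  linarith

private theorem REQjA_mean {β : ℝ} (h : 8 ≤ β) (v p w : X d) :
    jq β p ((β + jb β)⁻¹ • (β • v + jb β • p) + w) = v + (β⁻¹ * (β + jb β)) • w := by
  have h1 := REQjA_b_ge h
  have h2 : β + jb β ≠ 0 := by linarith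
  have h3 : β ≠ 0 := by linarith
  unfold jq
  rw [smul_add (β + jb β), smul_smul, mul_inv_cancel₀ h2, one_smul]
  have : β • v + jb β • p + (β + jb β) • w - jb β • p = β • v + (β + jb β) • w := by
    abel
  rw [this, smul_add, smul_smul, smul_smul, inv_mul_cancel₀ h3, one_smul]

private noncomputable def REQjA_f (β : ℝ) (p Y : X d) : ℝ :=
  (gc d (β + jb β))⁻¹ * (‖jq β p Y‖ ^ 10 - 5 * (d + 8) * js β * ‖jq β p Y‖ ^ 8 +
    10 * (d + 6) * (d + 8) * js β ^ 2 * ‖jq β p Y‖ ^ 6 -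
    10 * (d + 4) * (d + 6) * (d + 8) * js β ^ 3 * ‖jq β p Y‖ ^ 4 +
    5 * (d + 2) * (d + 4) * (d + 6) * (d + 8) * js β ^ 4 * ‖jq β p Y‖ ^ 2 -
    d * (d + 2) * (d + 4) * (d + 6) * (d + 8) * js β ^ 5)

theorem jo_mom {β : ℝ} (h : 8 ≤ β) (v p : X d) :
    ∫ Y : X d, ga β (v - Y) * jo β p Y = ‖v‖ ^ 10 * ga 4 (v - p) := by
  have h1 := REQjA_b_ge h
  have hβ : 0 < β := by linarith
  have hb : 0 < jb β := by linarith
  have hs : 0 < β + jb β := by linarith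
  have e : ∀ Y : X d, ga β (v - Y) * jo β p Y =
      (ga β (v - Y) * ga (jb β) (Y - p)) • REQjA_f β p Y := by
    intro Y
    unfold jo REQjA_f
    rw [smul_eq_mul]
    ring
  rw [integral_congr_ae (Eventually.of_forall e),
    ga_square hβ hb v p (fun Y => REQjA_f β p Y), REQjA_b_eq h]
  have hκ : 0 < β⁻¹ * (β + jb β) := by positivity
  have hg := gc_pos (d := d) hs
  have e2 : ∀ w : X d, ga (β + jb β) w •
      REQjA_f β p ((β + jb β)⁻¹ • (β • v + jb β • p) + w) =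
      (gc d (β + jb β))⁻¹ * (ga (β + jb β) w *
        (‖v + (β⁻¹ * (β + jb β)) • w‖ ^ 10 - 5 * (d + 8) * ((β⁻¹ * (β + jb β)) ^ 2 / (2 * (β + jb β))) * ‖v + (β⁻¹ * (β + jb β)) • w‖ ^ 8 +
          10 * (d + 6) * (d + 8) * ((β⁻¹ * (β + jb β)) ^ 2 / (2 * (β + jb β))) ^ 2 * ‖v + (β⁻¹ * (β + jb β)) • w‖ ^ 6 -
          10 * (d + 4) * (d + 6) * (d + 8) * ((β⁻¹ * (β + jb β)) ^ 2 / (2 * (β + jb β))) ^ 3 * ‖v + (β⁻¹ * (β + jb β)) • w‖ ^ 4 +
          5 * (d + 2) * (d + 4) * (d + 6) * (d + 8) * ((β⁻¹ * (β + jb β)) ^ 2 / (2 * (β + jb β))) ^ 4 * ‖v + (β⁻¹ * (β + jb β)) • w‖ ^ 2 -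
          d * (d + 2) * (d + 4) * (d + 6) * (d + 8) * ((β⁻¹ * (β + jb β)) ^ 2 / (2 * (β + jb β))) ^ 5)) := by
    intro w
    have hσ : js β = (β⁻¹ * (β + jb β)) ^ 2 / (2 * (β + jb β)) := by
      unfold js
      field_simp
    unfold REQjA_f
    rw [REQjA_mean h, hσ, smul_eq_mul]
    ring
  rw [integral_congr_ae (Eventually.of_forall e2), integral_const_mul,
    gauss_ten hs hκ v, smul_eq_mul]
  field_simp

end Pool.Agent.H48.RE
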