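import Pool.Agent.H48.RE.QjD

/-!
Continuity, integrability and the square bound of the test function.
-/

set_option autoImplicit false

open MeasureTheory Filter Topology Metric Set
open scoped RealInnerProductSpace ENNReal

namespace Pool.Agent.H48.RE

open Pool.Agent.RZ Pool.Agent.H1.LD Pool.Agent.H48.R7

variable {d : ℕ}

private theorem REQjB_b_ge {β : ℝ} (h : 8 ≤ β) : 4 ≤ jb β := by
  unfold jb
  rw [le_div_iff₀ (by linarith)]
  linarith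

private theorem REQjB_b_le {β : ℝ} (h : 8 ≤ β) : jb β ≤ 8 := by
  unfold jb
  rw [div_le_iff₀ (by linarith)]
  linarith

/-- bound for the polynomial factor, centred at `p` -/
private theorem REQjB_q_le {β : ℝ} (h : 8 ≤ β) (p w : X d) :
    ‖jq β p (p + w)‖ ≤ 2 * ((1 + ‖p‖) * (1 + ‖w‖)) := by
  have h1 := REQjB_b_ge h
  have h2 := REQjB_b_le h
  have h3 : β ≠ 0 := by linarith
  have e : jq β p (p + w) = p + (β⁻¹ * (β + jb β)) • w := by
    unfold jq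
    have : (β + jb β) • (p + w) - jb β • p = β • p + (β + jb β) • w := by
      rw [smul_add, add_smul, add_smul]; abel
    rw [this, smul_add, smul_smul, smul_smul, inv_mul_cancel₀ h3, one_smul]
  have hκ : β⁻¹ * (β + jb β) ≤ 2 := by
    rw [inv_mul_le_iff₀ (by linarith)]
    linarith
  have hκ0 : 0 ≤ β⁻¹ * (β + jb β) := by positivity
  rw [e]
  have h4 := norm_add_le p ((β⁻¹ * (β + jb β)) • w)
  rw [norm_smul, Real.norm_eq_abs, abs_of_nonneg hκ0] at h4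
  have h5 : β⁻¹ * (β + jb β) * ‖w‖ ≤ 2 * ‖w‖ := mul_le_mul_of_nonneg_right hκ (norm_nonneg w)
  nlinarith [norm_nonneg p, norm_nonneg w]

private theorem REQjB_s_le {β : ℝ} (h : 8 ≤ β) : js β ≤ 1 := by
  have h2 := REQjB_b_le h
  unfold js
  rw [div_le_one (by positivity)]
  nlinarith

private theorem REQjB_s_nonneg {β : ℝ} (h : 8 ≤ β) : 0 ≤ js β := by
  have h1 := REQjB_b_ge h
  unfold js
  positivity

/-- constant of the bound of `jo` -/
private noncomputable def REQjB_K (d : ℕ) : ℝ :=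
  (gc d 40)⁻¹ * (1024 + 5 * (d + 8) * 256 + 10 * (d + 6) * (d + 8) * 64 + 10 * (d + 4) * (d + 6) * (d + 8) * 16 +
    5 * (d + 2) * (d + 4) * (d + 6) * (d + 8) * 4 + d * (d + 2) * (d + 4) * (d + 6) * (d + 8))

private theorem REQjB_K_pos (d : ℕ) : 0 < REQjB_K d := by
  have := gc_pos (d := d) (b := 40) (by norm_num)
  unfold REQjB_K
  positivity

private theorem REQjB_poly_le {q A s : ℝ} {e : ℝ} (he : 0 ≤ e) (hq0 : 0 ≤ q) (hq : q ≤ 2 * A)
    (hA : 1 ≤ A) (hs0 : 0 ≤ s) (hs : s ≤ 1) :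
    |q ^ 10 - 5 * (e + 8) * s * q ^ 8 +
      10 * (e + 6) * (e + 8) * s ^ 2 * q ^ 6 -
      10 * (e + 4) * (e + 6) * (e + 8) * s ^ 3 * q ^ 4 +
      5 * (e + 2) * (e + 4) * (e + 6) * (e + 8) * s ^ 4 * q ^ 2 -
      e * (e + 2) * (e + 4) * (e + 6) * (e + 8) * s ^ 5| ≤
      (1024 + 5 * (e + 8) * 256 + 10 * (e + 6) * (e + 8) * 64 + 10 * (e + 4) * (e + 6) * (e + 8) * 16 +
    5 * (e + 2) * (e + 4) * (e + 6) * (e + 8) * 4 + e * (e + 2) * (e + 4) * (e + 6) * (e + 8)) * A ^ 10 := by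
  have h2 : q ^ 2 ≤ 4 * A ^ 10 := by
    calc q ^ 2 ≤ (2 * A) ^ 2 := pow_le_pow_left₀ hq0 hq 2
      _ = 4 * A ^ 2 := by ring
      _ ≤ 4 * A ^ 10 := by
        have := pow_le_pow_right₀ hA (show 2 ≤ 10 by norm_num)
        linarith
  have h4 : q ^ 4 ≤ 16 * A ^ 10 := by
    calc q ^ 4 ≤ (2 * A) ^ 4 := pow_le_pow_left₀ hq0 hq 4
      _ = 16 * A ^ 4 := by ring
      _ ≤ 16 * A ^ 10 := by
        have := pow_le_pow_right₀ hA (show 4 ≤ 10 by norm_num)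
        linarith
  have h6 : q ^ 6 ≤ 64 * A ^ 10 := by
    calc q ^ 6 ≤ (2 * A) ^ 6 := pow_le_pow_left₀ hq0 hq 6
      _ = 64 * A ^ 6 := by ring
      _ ≤ 64 * A ^ 10 := by
        have := pow_le_pow_right₀ hA (show 6 ≤ 10 by norm_num)
        linarith
  have h8 : q ^ 8 ≤ 256 * A ^ 10 := by
    calc q ^ 8 ≤ (2 * A) ^ 8 := pow_le_pow_left₀ hq0 hq 8
      _ = 256 * A ^ 8 := by ring
      _ ≤ 256 * A ^ 10 := by
        have := pow_le_pow_right₀ hA (show 8 ≤ 10 by norm_num)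
        linarith
  have h10 : q ^ 10 ≤ 1024 * A ^ 10 := by
    calc q ^ 10 ≤ (2 * A) ^ 10 := pow_le_pow_left₀ hq0 hq 10
      _ = 1024 * A ^ 10 := by ring
  have hA10 : 1 ≤ A ^ 10 := one_le_pow₀ hA
  have hs2 : s ^ 2 ≤ 1 := pow_le_one₀ hs0 hs
  have hs3 : s ^ 3 ≤ 1 := pow_le_one₀ hs0 hs
  have hs4 : s ^ 4 ≤ 1 := pow_le_one₀ hs0 hs
  have hs5 : s ^ 5 ≤ 1 := pow_le_one₀ hs0 hs
  have t1 : |q ^ 10| ≤ 1024 * A ^ 10 := by rw [abs_of_nonneg (by positivity)]; exact h10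
  have t2 : |5 * (e + 8) * s * q ^ 8| ≤ 5 * (e + 8) * 256 * A ^ 10 := by
    rw [abs_of_nonneg (by positivity)]
    calc 5 * (e + 8) * s * q ^ 8 ≤ 5 * (e + 8) * 1 * (256 * A ^ 10) := by gcongr
      _ = _ := by ring
  have t3 : |10 * (e + 6) * (e + 8) * s ^ 2 * q ^ 6| ≤ 10 * (e + 6) * (e + 8) * 64 * A ^ 10 := by
    rw [abs_of_nonneg (by positivity)]
    calc 10 * (e + 6) * (e + 8) * s ^ 2 * q ^ 6 ≤ 10 * (e + 6) * (e + 8) * 1 * (64 * A ^ 10) := by gcongr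
      _ = _ := by ring
  have t4 : |10 * (e + 4) * (e + 6) * (e + 8) * s ^ 3 * q ^ 4| ≤ 10 * (e + 4) * (e + 6) * (e + 8) * 16 * A ^ 10 := by
    rw [abs_of_nonneg (by positivity)]
    calc 10 * (e + 4) * (e + 6) * (e + 8) * s ^ 3 * q ^ 4 ≤ 10 * (e + 4) * (e + 6) * (e + 8) * 1 * (16 * A ^ 10) := by gcongr
      _ = _ := by ring
  have t5 : |5 * (e + 2) * (e + 4) * (e + 6) * (e + 8) * s ^ 4 * q ^ 2| ≤ 5 * (e + 2) * (e + 4) * (e + 6) * (e + 8) * 4 * A ^ 10 := by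
    rw [abs_of_nonneg (by positivity)]
    calc 5 * (e + 2) * (e + 4) * (e + 6) * (e + 8) * s ^ 4 * q ^ 2 ≤ 5 * (e + 2) * (e + 4) * (e + 6) * (e + 8) * 1 * (4 * A ^ 10) := by gcongr
      _ = _ := by ring
  have t6 : |e * (e + 2) * (e + 4) * (e + 6) * (e + 8) * s ^ 5| ≤ e * (e + 2) * (e + 4) * (e + 6) * (e + 8) * A ^ 10 := by
    rw [abs_of_nonneg (by positivity)]
    calc e * (e + 2) * (e + 4) * (e + 6) * (e + 8) * s ^ 5 ≤ e * (e + 2) * (e + 4) * (e + 6) * (e + 8) * A ^ 10 := by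
          gcongr
          linarith
      _ = _ := by ring
  have a5 := abs_sub (q ^ 10 - 5 * (e + 8) * s * q ^ 8 + 10 * (e + 6) * (e + 8) * s ^ 2 * q ^ 6 - 10 * (e + 4) * (e + 6) * (e + 8) * s ^ 3 * q ^ 4 + 5 * (e + 2) * (e + 4) * (e + 6) * (e + 8) * s ^ 4 * q ^ 2) (e * (e + 2) * (e + 4) * (e + 6) * (e + 8) * s ^ 5)
  have a4 := abs_add_le (q ^ 10 - 5 * (e + 8) * s * q ^ 8 + 10 * (e + 6) * (e + 8) * s ^ 2 * q ^ 6 - 10 * (e + 4) * (e + 6) * (e + 8) * s ^ 3 * q ^ 4) (5 * (e + 2) * (e + 4) * (e + 6) * (e + 8) * s ^ 4 * q ^ 2)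
  have a3 := abs_sub (q ^ 10 - 5 * (e + 8) * s * q ^ 8 + 10 * (e + 6) * (e + 8) * s ^ 2 * q ^ 6) (10 * (e + 4) * (e + 6) * (e + 8) * s ^ 3 * q ^ 4)
  have a2 := abs_add_le (q ^ 10 - 5 * (e + 8) * s * q ^ 8) (10 * (e + 6) * (e + 8) * s ^ 2 * q ^ 6)
  have a1 := abs_sub (q ^ 10) (5 * (e + 8) * s * q ^ 8)
  have fin : (1024 + 5 * (e + 8) * 256 + 10 * (e + 6) * (e + 8) * 64 + 10 * (e + 4) * (e + 6) * (e + 8) * 16 +
    5 * (e + 2) * (e + 4) * (e + 6) * (e + 8) * 4 + e * (e + 2) * (e + 4) * (e + 6) * (e + 8)) * A ^ 10 =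
      1024 * A ^ 10 + 5 * (e + 8) * 256 * A ^ 10 + 10 * (e + 6) * (e + 8) * 64 * A ^ 10 + 10 * (e + 4) * (e + 6) * (e + 8) * 16 * A ^ 10 + 5 * (e + 2) * (e + 4) * (e + 6) * (e + 8) * 4 * A ^ 10 + e * (e + 2) * (e + 4) * (e + 6) * (e + 8) * A ^ 10 := by ring
  rw [fin]
  linarith

private theorem REQjB_m_le {β : ℝ} (h : 8 ≤ β) (h' : β ≤ 32) (p w : X d) :
    |jo β p (p + w)| ≤ REQjB_K d * ((1 + ‖p‖) ^ 10 * ((1 + ‖w‖) ^ 10 * ga 4 w)) := by
  have h1 := REQjB_b_ge h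
  have h2 := REQjB_b_le h
  have hq := REQjB_q_le h p w
  have hs := REQjB_s_le h
  have hs0 := REQjB_s_nonneg h
  have hg40 := gc_pos (d := d) (b := 40) (by norm_num)
  have hg : gc d 40 ≤ gc d (β + jb β) := by
    unfold gc
    refine integral_mono ?_ ?_ fun w => ga_anti (by linarith) w
    · simpa using ga_integrable (d := d) (b := 40) (by norm_num) 0
    · simpa using ga_integrable (d := d) (b := β + jb β) (by linarith) 0
  have hgi : (gc d (β + jb β))⁻¹ ≤ (gc d 40)⁻¹ := inv_anti₀ hg40 hg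
  have hgp : 0 < gc d (β + jb β) := lt_of_lt_of_le hg40 hg
  set A : ℝ := (1 + ‖p‖) * (1 + ‖w‖) with hA
  have hA1 : 1 ≤ A := by
    rw [hA]; nlinarith [norm_nonneg p, norm_nonneg w, mul_nonneg (norm_nonneg p) (norm_nonneg w)]
  have hP := REQjB_poly_le (e := (d : ℝ)) (by positivity) (norm_nonneg (jq β p (p + w))) hq hA1
    hs0 hs
  have hga : ga (jb β) w ≤ ga 4 w := ga_anti h1 w
  unfold jo
  rw [abs_mul, abs_mul, abs_of_pos (ga_pos _ _), abs_of_pos (inv_pos.2 hgp),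
    add_sub_cancel_left]
  refine (mul_le_mul (mul_le_mul hgi hP (abs_nonneg _) (by positivity)) hga (ga_nonneg _ _)
    (by positivity)).trans (le_of_eq ?_)
  rw [hA]
  unfold REQjB_K
  ring

private theorem REQjB_q_cont (β : ℝ) (p : X d) : Continuous (jq β p) := by
  unfold jq; fun_prop

theorem jo_cont (β : ℝ) (p : X d) : Continuous (jo β p) := by
  have h1 := REQjB_q_cont β p
  unfold jo
  have h2 : Continuous fun Y : X d => ga (jb β) (Y - p) :=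
    (ga_continuous _).comp (continuous_id.sub continuous_const)
  fun_prop

theorem jo_int {β : ℝ} (h : 8 ≤ β) (h' : β ≤ 32) (p : X d) :
    Integrable (fun Y : X d => jo β p Y) := by
  have h1 : Integrable (fun w : X d => jo β p (p + w)) := by
    refine Integrable.mono' (((ga_integrable (d := d) (b := 4) (by norm_num) 10).const_mul
      ((1 + ‖p‖) ^ 10)).const_mul (REQjB_K d)) ?_ (Eventually.of_forall fun w => ?_)
    · exact ((jo_cont β p).comp (by fun_prop)).aestronglyMeasurable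
    · rw [Real.norm_eq_abs]
      exact REQjB_m_le h h' p w
  have h2 := h1.comp_add_left (-p)
  simpa only [add_neg_cancel_left] using h2

/-- the Gaussian moment of the bound -/
private noncomputable def REQjB_I (d : ℕ) : ℝ := ∫ w : X d, (1 + ‖w‖) ^ 20 * ga 8 w

theorem jo_sq (d : ℕ) : ∃ C : ℝ, 0 < C ∧ ∀ β : ℝ, 8 ≤ β → β ≤ 32 → ∀ p : X d,
    ∫⁻ Y : X d, ‖jo β p Y‖ₑ ^ 2 ≤ ENNReal.ofReal (C * (1 + ‖p‖) ^ 20) := by
  have hK := REQjB_K_pos d
  have hI0 : 0 ≤ REQjB_I d := by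
    unfold REQjB_I
    refine integral_nonneg fun w => ?_
    have := ga_nonneg 8 w
    positivity
  refine ⟨REQjB_K d ^ 2 * REQjB_I d + 1, by positivity, fun β h h' p => ?_⟩
  have hI := ga_integrable (d := d) (b := 8) (by norm_num) 20
  have hpt : ∀ w : X d, ‖jo β p (p + w)‖ₑ ^ 2 ≤
      ENNReal.ofReal (REQjB_K d ^ 2 * (1 + ‖p‖) ^ 20 * ((1 + ‖w‖) ^ 20 * ga 8 w)) := by
    intro w
    rw [← ofReal_norm, ← ENNReal.ofReal_pow (norm_nonneg _), Real.norm_eq_abs]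
    refine ENNReal.ofReal_le_ofReal ?_
    calc |jo β p (p + w)| ^ 2
        ≤ (REQjB_K d * ((1 + ‖p‖) ^ 10 * ((1 + ‖w‖) ^ 10 * ga 4 w))) ^ 2 :=
          pow_le_pow_left₀ (abs_nonneg _) (REQjB_m_le h h' p w) 2
      _ = REQjB_K d ^ 2 * (1 + ‖p‖) ^ 20 * ((1 + ‖w‖) ^ 20 * (ga 4 w * ga 4 w)) := by ring
      _ = _ := by rw [ga_mul]; norm_num
  calc ∫⁻ Y : X d, ‖jo β p Y‖ₑ ^ 2 = ∫⁻ w : X d, ‖jo β p (p + w)‖ₑ ^ 2 :=
        (lintegral_add_left_eq_self (μ := (volume : Measure (X d)))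
          (fun Y => ‖jo β p Y‖ₑ ^ 2) p).symm
    _ ≤ ∫⁻ w : X d, ENNReal.ofReal (REQjB_K d ^ 2 * (1 + ‖p‖) ^ 20 *
          ((1 + ‖w‖) ^ 20 * ga 8 w)) := lintegral_mono hpt
    _ = ENNReal.ofReal (∫ w : X d, REQjB_K d ^ 2 * (1 + ‖p‖) ^ 20 *
          ((1 + ‖w‖) ^ 20 * ga 8 w)) := by
        rw [ofReal_integral_eq_lintegral_ofReal (hI.const_mul _)]
        refine Eventually.of_forall fun w => ?_
        have := ga_nonneg 8 w
        simp only [Pi.zero_apply]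
        positivity
    _ = ENNReal.ofReal (REQjB_K d ^ 2 * REQjB_I d * (1 + ‖p‖) ^ 20) := by
        rw [integral_const_mul]
        congr 1
        unfold REQjB_I
        ring
    _ ≤ ENNReal.ofReal ((REQjB_K d ^ 2 * REQjB_I d + 1) * (1 + ‖p‖) ^ 20) := by
        refine ENNReal.ofReal_le_ofReal ?_
        gcongr
        linarith

end Pool.Agent.H48.RE
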